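import Pool.Agent.X111.FZ.Fin

set_option autoImplicit false
set_option linter.unusedSectionVars false

/-! The mean maxima of the field over segments: translation invariance, subadditivity, the limit. -/

namespace Pool.Agent.X111.FZ

open MeasureTheory ProbabilityTheory Filter Topology
open Pool.Agent.X111.FL

/-- the powers on the line -/
noncomputable def V (k : ℝ) (ω : ℕ → ℝ × ℝ) (a : ℝ) : ENNReal := ENNReal.ofReal (Real.exp (2 * k * lz k ω (Complex.I * (a : ℂ))))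

lemma V_meas (k a : ℝ) : AEMeasurable (fun ω => V k ω a) PG :=
  ENNReal.measurable_ofReal.comp_aemeasurable (Real.measurable_exp.comp_aemeasurable ((lz_meas k (il_re _)).const_mul _))

lemma V_cont (k : ℝ) {ω : ℕ → ℝ × ℝ} (hω : Gd ω) : Continuous (V k ω) := by
  have h1 : ∀ a : ℝ, V k ω a = ENNReal.ofReal (‖fi k ω (Complex.I * (a : ℂ))‖ ^ (2 * k)) := by
    intro a
    unfold V
    rw [exp_lz k ω (il_re _), ← Real.exp_mul]
    congr 2
    ring
  rw [continuous_iff_continuousAt]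
  intro a
  have h2 : ContinuousAt (fun a : ℝ => ENNReal.ofReal (‖fi k ω (Complex.I * (a : ℂ))‖ ^ (2 * k))) a := by
    have h3 : ContinuousAt (fi k ω) (Complex.I * (a : ℂ)) := by
      refine ((fi_diff k hω (H := |a|)).mono (D1_D2 _)).continuousOn.continuousAt ((D1_open |a|).mem_nhds ?_)
      refine ⟨by simp, ?_⟩
      simp
    refine ENNReal.continuous_ofReal.continuousAt.comp (ContinuousAt.rpow_const ?_ (Or.inl ?_))
    · exact (ContinuousAt.comp (f := fun a : ℝ => Complex.I * (a : ℂ)) h3 (by fun_prop)).norm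
    · rw [exp_lz k ω (il_re _)]
      exact (Real.exp_pos _).ne'
  exact h2.congr (Eventually.of_forall fun a => (h1 a).symm)

/-- the supremum over a segment -/
noncomputable def SV (k b L : ℝ) (ω : ℕ → ℝ × ℝ) : ENNReal := ⨆ x : Set.Icc (0:ℝ) 1, V k ω (b + L * x)

/-- a dense sequence -/
noncomputable def qs : ℕ → Set.Icc (0:ℝ) 1 := TopologicalSpace.denseSeq (Set.Icc (0:ℝ) 1)

lemma SV_dense (k b L : ℝ) {ω : ℕ → ℝ × ℝ} (hω : Gd ω) : SV k b L ω = ⨆ n : ℕ, ⨆ i : Fin n, V k ω (b + L * qs i) := by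
  refine le_antisymm ?_ ?_
  · refine iSup_le fun x => ?_
    have hcl : IsClosed {x : Set.Icc (0:ℝ) 1 | V k ω (b + L * x) ≤ ⨆ n : ℕ, ⨆ i : Fin n, V k ω (b + L * qs i)} := by
      refine isClosed_le ((V_cont k hω).comp (by fun_prop)) continuous_const
    refine isClosed_property (TopologicalSpace.denseRange_denseSeq (Set.Icc (0:ℝ) 1)) hcl (fun i => ?_) x
    refine le_trans ?_ (le_iSup _ (i + 1))
    exact le_iSup (fun j : Fin (i + 1) => V k ω (b + L * qs j)) ⟨i, Nat.lt_succ_self i⟩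
  · exact iSup_le fun n => iSup_le fun i => le_iSup (fun x : Set.Icc (0:ℝ) 1 => V k ω (b + L * x)) (qs i)

lemma SV_meas (k b L : ℝ) : AEMeasurable (SV k b L) PG := by
  refine (AEMeasurable.iSup fun n : ℕ => AEMeasurable.iSup fun i : Fin n => V_meas k (b + L * qs i)).congr ?_
  filter_upwards [Gd_ae] with ω hω
  rw [SV_dense k b L hω]

/-- translation invariance for finitely many points -/
lemma fin_shift (k b L : ℝ) (n : ℕ) : ∫⁻ ω, ⨆ i : Fin n, V k ω (b + L * qs i) ∂PG = ∫⁻ ω, ⨆ i : Fin n, V k ω (0 + L * qs i) ∂PG := by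
  obtain ⟨F, hF⟩ : ∃ F : (Option (Fin n) → ℝ) → ENNReal, F = fun v => ⨆ j : Fin n, ENNReal.ofReal (Real.exp (2 * k * v (some j))) := ⟨_, rfl⟩
  have hFm : Measurable F := by
    rw [hF]
    exact Measurable.iSup fun j => ENNReal.measurable_ofReal.comp (Real.measurable_exp.comp ((measurable_pi_apply _).const_mul _))
  have hh : ∀ (c : ℝ) (v : Option (Fin n) → ℝ), F (fun j => v j + c) = ENNReal.ofReal (Real.exp (2 * k * c)) * F v := by
    intro c v
    rw [hF]
    simp only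
    rw [ENNReal.mul_iSup]
    congr 1
    funext j
    rw [← ENNReal.ofReal_mul (Real.exp_pos _).le, ← Real.exp_add]
    congr 2
    ring
  have h1 := inv k (ι := Option (Fin n)) none (fun j => j.elim 0 fun j => Complex.I * ((0 + L * qs j : ℝ) : ℂ)) (fun j => by
    cases j with
    | none => simp
    | some j => exact il_re _) rfl (z0 := Complex.I * (b : ℂ)) (il_re b) F hFm hh
  have e0 : (Complex.I * (b : ℂ)).re = 0 := by simp
  have e2 : ∀ x : ℝ, af (Complex.I * (b : ℂ)) (Complex.I * ((0 + x : ℝ) : ℂ)) = Complex.I * ((b + x : ℝ) : ℂ) := by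
    intro x
    unfold af
    rw [e0]
    push_cast
    ring
  rw [e0, add_zero, Real.one_rpow, ENNReal.ofReal_one, one_mul] at h1
  have e3 : ∀ ω, F (fun j : Option (Fin n) => lz k ω (af (Complex.I * (b : ℂ)) (j.elim 0 fun j => Complex.I * ((0 + L * qs j : ℝ) : ℂ)))) =
      ⨆ i : Fin n, V k ω (b + L * qs i) := by
    intro ω
    rw [hF]
    simp only [Option.elim, e2]
    rfl
  have e4 : ∀ ω, F (fun j : Option (Fin n) => lz k ω (j.elim 0 fun j => Complex.I * ((0 + L * qs j : ℝ) : ℂ))) =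
      ⨆ i : Fin n, V k ω (0 + L * qs i) := by
    intro ω
    rw [hF]
    rfl
  simp_rw [e3, e4] at h1
  exact h1

/-- the mean supremum -/
noncomputable def TT (k L : ℝ) : ENNReal := ∫⁻ ω, SV k 0 L ω ∂PG

lemma SV_lim (k b L : ℝ) : ∫⁻ ω, SV k b L ω ∂PG = ⨆ n : ℕ, ∫⁻ ω, ⨆ i : Fin n, V k ω (b + L * qs i) ∂PG := by
  rw [← lintegral_iSup' (fun n => AEMeasurable.iSup fun i : Fin n => V_meas k (b + L * qs i)) (Eventually.of_forall fun ω n m hnm => ?_)]
  · refine lintegral_congr_ae ?_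
    filter_upwards [Gd_ae] with ω hω
    exact SV_dense k b L hω
  · exact iSup_le fun i => le_iSup (fun j : Fin m => V k ω (b + L * qs j)) ⟨i, i.2.trans_le hnm⟩

/-- translation invariance -/
lemma SV_shift (k b L : ℝ) : ∫⁻ ω, SV k b L ω ∂PG = TT k L := by
  unfold TT
  rw [SV_lim, SV_lim]
  simp_rw [fin_shift k b L]

lemma SV_split (k : ℝ) {L M : ℝ} (hL : 0 ≤ L) (hM : 0 ≤ M) (ω : ℕ → ℝ × ℝ) : SV k 0 (L + M) ω ≤ SV k 0 L ω + SV k L M ω := by
  refine iSup_le fun x => ?_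
  have hx0 := x.2.1
  have hx1 := x.2.2
  rcases le_or_gt ((L + M) * (x : ℝ)) L with h | h
  · refine le_trans ?_ (le_add_right le_rfl)
    rcases hL.eq_or_lt with h0 | h0
    · rw [← h0] at h ⊢
      have h1 : (0 + M) * (x : ℝ) = 0 := le_antisymm h (mul_nonneg (by linarith) hx0)
      rw [h1]
      refine le_trans (le_of_eq ?_) (le_iSup (fun x : Set.Icc (0:ℝ) 1 => V k ω (0 + 0 * x)) ⟨0, by simp⟩)
      simp
    · refine le_trans (le_of_eq ?_) (le_iSup (fun x : Set.Icc (0:ℝ) 1 => V k ω (0 + L * x))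
        ⟨(L + M) * x / L, by positivity, by rw [div_le_one h0]; exact h⟩)
      congr 1
      field_simp
  · refine le_trans ?_ (le_add_left le_rfl)
    have hM0 : 0 < M := by
      by_contra hcon
      have : M = 0 := le_antisymm (not_lt.mp hcon) hM
      rw [this, add_zero] at h
      nlinarith
    refine le_trans (le_of_eq ?_) (le_iSup (fun x : Set.Icc (0:ℝ) 1 => V k ω (L + M * x))
      ⟨((L + M) * x - L) / M, div_nonneg (by linarith) hM, by rw [div_le_one hM0]; nlinarith⟩)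
    congr 1
    field_simp
    ring

lemma TT_add (k : ℝ) {L M : ℝ} (hL : 0 ≤ L) (hM : 0 ≤ M) : TT k (L + M) ≤ TT k L + TT k M := by
  rw [← SV_shift k L M]
  unfold TT
  rw [← lintegral_add_left' (SV_meas k 0 L)]
  exact lintegral_mono fun ω => SV_split k hL hM ω

lemma TT_mono (k : ℝ) {L M : ℝ} (hL : 0 ≤ L) (hM : L ≤ M) : TT k L ≤ TT k M := by
  refine lintegral_mono fun ω => iSup_le fun x => ?_
  have hx0 := x.2.1
  have hx1 := x.2.2
  rcases hL.eq_or_lt with h0 | h0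
  · refine le_trans (le_of_eq ?_) (le_iSup (fun x : Set.Icc (0:ℝ) 1 => V k ω (0 + M * x)) ⟨0, by simp⟩)
    rw [← h0]
    simp
  · have hM0 : 0 < M := by linarith
    refine le_trans (le_of_eq ?_) (le_iSup (fun x : Set.Icc (0:ℝ) 1 => V k ω (0 + M * x))
      ⟨L * x / M, by positivity, by rw [div_le_one hM0]; nlinarith⟩)
    congr 1
    field_simp

/-- the mean maximum -/
lemma LM_TT {k H : ℝ} (hk : 0 < k) (hH : 0 ≤ H) : ENNReal.ofReal (LM k H) = TT k (2 * H) := by
  rw [LM_lint hk hH, ← SV_shift k (-H) (2 * H)]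
  refine lintegral_congr_ae ?_
  filter_upwards [Gd_ae] with ω hω
  have hv : ∀ a : ℝ, V k ω a = ENNReal.ofReal (‖fi k ω (Complex.I * (a : ℂ))‖ ^ (2 * k)) := by
    intro a
    unfold V
    rw [exp_lz k ω (il_re _), ← Real.exp_mul]
    congr 2
    ring
  refine le_antisymm ?_ ?_
  · by_cases ht : SV k (-H) (2 * H) ω = ⊤
    · rw [ht]
      exact le_top
    · rw [ENNReal.ofReal_le_iff_le_toReal ht]
      obtain ⟨s, hs⟩ : ∃ s : ℝ, s = (SV k (-H) (2 * H) ω).toReal := ⟨_, rfl⟩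
      have hs0 : 0 ≤ s := by rw [hs]; exact ENNReal.toReal_nonneg
      rw [← hs]
      have h1 : ‖pth H (fi k ω)‖ ≤ s ^ (1 / (2 * k)) := by
        rw [ContinuousMap.norm_le _ (by positivity)]
        intro a
        rw [pth_fi k hω]
        have ha1 := a.2.1
        have ha2 := a.2.2
        have h2 : V k ω a ≤ SV k (-H) (2 * H) ω := by
          rcases hH.eq_or_lt with h0 | h0
          · refine le_trans (le_of_eq ?_) (le_iSup (fun x : Set.Icc (0:ℝ) 1 => V k ω (-H + 2 * H * x)) ⟨0, by simp⟩)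
            have : (a : ℝ) = 0 := by linarith
            rw [this, ← h0]
            simp
          · refine le_trans (le_of_eq ?_) (le_iSup (fun x : Set.Icc (0:ℝ) 1 => V k ω (-H + 2 * H * x))
              ⟨(a + H) / (2 * H), div_nonneg (by linarith) (by positivity), by rw [div_le_one (by positivity)]; linarith⟩)
            congr 1
            field_simp
            ring
        rw [hv, ENNReal.ofReal_le_iff_le_toReal ht, ← hs] at h2
        have h3 := Real.rpow_le_rpow (Real.rpow_nonneg (norm_nonneg _) _) h2 (show 0 ≤ 1 / (2 * k) by positivity)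
        rwa [← Real.rpow_mul (norm_nonneg _), mul_one_div, div_self (by positivity : (2 * k) ≠ 0), Real.rpow_one] at h3
      have h3 := Real.rpow_le_rpow (norm_nonneg _) h1 (show 0 ≤ 2 * k by positivity)
      rwa [← Real.rpow_mul hs0, one_div, inv_mul_cancel₀ (by positivity), Real.rpow_one] at h3
  · refine iSup_le fun x => ?_
    have hx0 := x.2.1
    have hx1 := x.2.2
    rw [hv]
    refine ENNReal.ofReal_le_ofReal (Real.rpow_le_rpow (norm_nonneg _) ?_ (by positivity))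
    have h1 := (pth H (fi k ω)).norm_coe_le_norm ⟨-H + 2 * H * x, by constructor <;> nlinarith⟩
    rwa [pth_fi k hω] at h1

/-- **The limit of the mean maxima.** -/
theorem lim_ratio {k : ℝ} (hk : 0 < k) : ∃ c : ℝ, 0 ≤ c ∧ Tendsto (fun H : ℝ => LM k H / H) atTop (𝓝 c) := by
  obtain ⟨C, hC0, hC⟩ := up_lin hk
  have htop : ∀ L : ℝ, 0 ≤ L → TT k L ≠ ⊤ := by
    intro L hL
    have h1 := LM_TT hk (show 0 ≤ L / 2 by positivity)
    rw [mul_div_cancel₀ _ two_ne_zero] at h1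
    rw [← h1]
    exact ENNReal.ofReal_ne_top
  obtain ⟨G, hG⟩ : ∃ G : ℝ → ℝ, G = fun L => (TT k L).toReal := ⟨_, rfl⟩
  have hGadd : ∀ L M : ℝ, 0 ≤ L → 0 ≤ M → G (L + M) ≤ G L + G M := by
    intro L M hL hM
    rw [hG]
    simp only
    rw [← ENNReal.toReal_add (htop L hL) (htop M hM)]
    exact ENNReal.toReal_mono (ENNReal.add_ne_top.mpr ⟨htop L hL, htop M hM⟩) (TT_add k hL hM)
  have hGmono : ∀ L M : ℝ, 0 ≤ L → L ≤ M → G L ≤ G M := by
    intro L M hL hM
    rw [hG]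
    exact ENNReal.toReal_mono (htop M (hL.trans hM)) (TT_mono k hL hM)
  have hG0 : ∀ L : ℝ, 0 ≤ G L := fun L => by rw [hG]; exact ENNReal.toReal_nonneg
  have hGLM : ∀ H : ℝ, 0 ≤ H → LM k H = G (2 * H) := by
    intro H hH
    rw [hG]
    simp only
    rw [← LM_TT hk hH, ENNReal.toReal_ofReal (LM_nonneg k H)]
  have hsub : Subadditive fun n : ℕ => G n := by
    intro m n
    push_cast
    exact hGadd m n (Nat.cast_nonneg m) (Nat.cast_nonneg n)
  have hbdd : BddBelow (Set.range fun n : ℕ => G n / n) := ⟨0, by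
    rintro _ ⟨n, rfl⟩
    exact div_nonneg (hG0 _) (Nat.cast_nonneg n)⟩
  have hlim := hsub.tendsto_lim hbdd
  obtain ⟨l, hl⟩ : ∃ l : ℝ, l = hsub.lim := ⟨_, rfl⟩
  rw [← hl] at hlim
  have hl0 : 0 ≤ l := ge_of_tendsto' hlim fun n => div_nonneg (hG0 _) (Nat.cast_nonneg n)
  -- real arguments
  have hfl : Tendsto (fun L : ℝ => ⌊L⌋₊) atTop atTop := tendsto_nat_floor_atTop
  have h1 : Tendsto (fun L : ℝ => G (⌊L⌋₊ : ℝ) / (⌊L⌋₊ : ℝ)) atTop (𝓝 l) := hlim.comp hfl
  have h2 : Tendsto (fun L : ℝ => G ((⌊L⌋₊ + 1 : ℕ) : ℝ) / ((⌊L⌋₊ + 1 : ℕ) : ℝ)) atTop (𝓝 l) :=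
    hlim.comp ((tendsto_add_atTop_nat 1).comp hfl)
  have h3 : Tendsto (fun L : ℝ => (⌊L⌋₊ : ℝ) / L) atTop (𝓝 1) := tendsto_nat_floor_div_atTop
  have h4 : Tendsto (fun L : ℝ => ((⌊L⌋₊ + 1 : ℕ) : ℝ) / L) atTop (𝓝 1) := by
    have h5 : Tendsto (fun L : ℝ => (⌊L⌋₊ : ℝ) / L + 1 / L) atTop (𝓝 (1 + 0)) := h3.add (tendsto_const_nhds.div_atTop tendsto_id)
    rw [add_zero] at h5
    refine h5.congr fun L => ?_
    push_cast
    ring
  have hGL : Tendsto (fun L : ℝ => G L / L) atTop (𝓝 l) := by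
    have lo := h1.mul h3
    have up := h2.mul h4
    rw [mul_one] at lo up
    refine tendsto_of_tendsto_of_tendsto_of_le_of_le' lo up ?_ ?_
    · filter_upwards [eventually_ge_atTop 1] with L hL
      have hf : (0:ℝ) < (⌊L⌋₊ : ℝ) := by exact_mod_cast Nat.floor_pos.mpr hL
      have e1 : G (⌊L⌋₊ : ℝ) / (⌊L⌋₊ : ℝ) * ((⌊L⌋₊ : ℝ) / L) = G (⌊L⌋₊ : ℝ) / L := by field_simp
      rw [e1]
      exact div_le_div_of_nonneg_right (hGmono _ _ hf.le (Nat.floor_le (by linarith))) (by linarith)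
    · filter_upwards [eventually_ge_atTop 1] with L hL
      have hf : (0:ℝ) < ((⌊L⌋₊ + 1 : ℕ) : ℝ) := by positivity
      have e1 : G ((⌊L⌋₊ + 1 : ℕ) : ℝ) / ((⌊L⌋₊ + 1 : ℕ) : ℝ) * (((⌊L⌋₊ + 1 : ℕ) : ℝ) / L) = G ((⌊L⌋₊ + 1 : ℕ) : ℝ) / L := by field_simp
      rw [e1]
      refine div_le_div_of_nonneg_right (hGmono _ _ (by linarith) ?_) (by linarith)
      push_cast
      exact (Nat.lt_floor_add_one L).le
  refine ⟨2 * l, by positivity, ?_⟩
  have h5 : Tendsto (fun H : ℝ => 2 * (G (2 * H) / (2 * H))) atTop (𝓝 (2 * l)) :=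
    (hGL.comp (tendsto_id.const_mul_atTop two_pos)).const_mul 2
  refine h5.congr' ?_
  filter_upwards [eventually_gt_atTop 0] with H hH
  rw [hGLM H hH.le]
  field_simp

/-- **Positivity of the limit, `k > 1`.** -/
theorem lim_pos {k : ℝ} (hk : 1 < k) : ∃ c : ℝ, 0 < c ∧ Tendsto (fun H : ℝ => LM k H / H) atTop (𝓝 c) := by
  obtain ⟨c, -, hc⟩ := lim_ratio (k := k) (by linarith)
  obtain ⟨a, ha0, ha⟩ := LM_low hk
  refine ⟨c, lt_of_lt_of_le ha0 (ge_of_tendsto hc ?_), hc⟩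
  filter_upwards [eventually_gt_atTop 0] with H hH
  rw [le_div_iff₀ hH]
  have := ha H hH.le
  nlinarith

end Pool.Agent.X111.FZ
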