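import Pool.Agent.X111.FZ.Inv

set_option autoImplicit false
set_option linter.unusedSectionVars false

/-! Fractional moments of the sums of the field over dyadic blocks of integers, `k > 1`. -/

namespace Pool.Agent.X111.FZ

open MeasureTheory ProbabilityTheory Filter Topology
open Pool.Agent.X111.FL

lemma il_re (x : ℝ) : -1 < (Complex.I * (x : ℂ)).re := by simp

lemma re_re {x : ℝ} (hx : 0 ≤ x) : -1 < ((x : ℝ) : ℂ).re := by
  rw [Complex.ofReal_re]
  linarith

/-- one point -/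
lemma lz_one_int (k c : ℝ) {z : ℂ} (hz : -1 < z.re) : Integrable (fun ω => Real.exp (c * lz k ω z)) PG := by
  have h1 := lz_int k (ι := Unit) (fun _ => z) (fun _ => hz) (fun _ => c)
  refine h1.congr (Eventually.of_forall fun ω => ?_)
  show Real.exp (∑ _j : Unit, c * lz k ω z) = _
  simp

lemma lz_one (k c : ℝ) {z : ℂ} (hz : -1 < z.re) :
    ∫ ω, Real.exp (c * lz k ω z) ∂PG = Real.exp (-(1 / 4) * (c ^ 2 * sg z z) + (c / 2 - k) * (c * Real.log ‖1 + z / 2‖)) := by
  have h1 := lz_real k (ι := Unit) (fun _ => z) (fun _ => hz) (fun _ => c)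
  simp only [Finset.univ_unique, Finset.sum_const, Finset.card_singleton, one_smul] at h1
  rw [h1]
  congr 1
  ring

/-- two points -/
lemma lz_two_int (k a b : ℝ) {z u : ℂ} (hz : -1 < z.re) (hu : -1 < u.re) : Integrable (fun ω => Real.exp (a * lz k ω z + b * lz k ω u)) PG := by
  have h1 := lz_int k (ι := Fin 2) ![z, u] (by intro j; fin_cases j <;> assumption) ![a, b]
  refine h1.congr (Eventually.of_forall fun ω => ?_)
  simp [Fin.sum_univ_two]

lemma sg_symm (z u : ℂ) : sg u z = sg z u := by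
  unfold sg
  rw [← RCLike.norm_conj (1 + (u + (starRingEnd ℂ) z) / 2)]
  simp only [map_add, map_one, map_div₀, map_ofNat, Complex.conj_conj]
  rw [add_comm ((starRingEnd ℂ) u) z]

lemma lz_two (k a b : ℝ) {z u : ℂ} (hz : -1 < z.re) (hu : -1 < u.re) :
    ∫ ω, Real.exp (a * lz k ω z + b * lz k ω u) ∂PG = Real.exp (-(1 / 4) * (a ^ 2 * sg z z + 2 * a * b * sg z u + b ^ 2 * sg u u) +
      ((a + b) / 2 - k) * (a * Real.log ‖1 + z / 2‖ + b * Real.log ‖1 + u / 2‖)) := by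
  have h1 := lz_real k (ι := Fin 2) ![z, u] (by intro j; fin_cases j <;> assumption) ![a, b]
  simp only [Fin.sum_univ_two, Matrix.cons_val_zero, Matrix.cons_val_one] at h1
  rw [h1, sg_symm z u]
  congr 1
  ring

lemma sg_line (x : ℝ) : sg (Complex.I * x) (Complex.I * x) = 0 := by
  unfold sg
  simp

lemma sg_real {x : ℝ} (hx : 0 ≤ x) : sg ((x : ℝ) : ℂ) ((x : ℝ) : ℂ) = Real.log (1 + x) := by
  unfold sg
  rw [Complex.conj_ofReal]
  have e1 : (1 + (((x : ℝ) : ℂ) + ((x : ℝ) : ℂ)) / 2 : ℂ) = ((1 + x : ℝ) : ℂ) := by push_cast; ring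
  rw [e1, Complex.norm_real, Real.norm_of_nonneg (by linarith)]

lemma norm_real_half {x : ℝ} (hx : 0 ≤ x) : ‖(1 + ((x : ℝ) : ℂ) / 2 : ℂ)‖ = 1 + x / 2 := by
  have e1 : (1 + ((x : ℝ) : ℂ) / 2 : ℂ) = ((1 + x / 2 : ℝ) : ℂ) := by push_cast; ring
  rw [e1, Complex.norm_real, Real.norm_of_nonneg (by linarith)]

/-- the moment at the real point -/
lemma X_bd {k u A : ℝ} (hu0 : 0 ≤ u) (huk : u ≤ k) (hA : 0 ≤ A) :
    ∫ ω, Real.exp (2 * u * lz k ω (A : ℂ)) ∂PG ≤ 2 ^ (2 * u * (k - u)) * (1 + A) ^ (u ^ 2 - 2 * u * k) := by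
  rw [lz_one k _ (re_re hA), sg_real hA, norm_real_half hA]
  have hr : 0 < 1 + A := by linarith
  have h1 : Real.log (1 + A) - Real.log 2 ≤ Real.log (1 + A / 2) := by
    rw [← Real.log_div hr.ne' two_ne_zero]
    exact Real.log_le_log (by positivity) (by linarith)
  rw [Real.rpow_def_of_pos two_pos, Real.rpow_def_of_pos hr, ← Real.exp_add]
  refine Real.exp_le_exp.mpr ?_
  have h2 : 0 ≤ 2 * u * (k - u) := mul_nonneg (by positivity) (by linarith)
  nlinarith [mul_le_mul_of_nonneg_left h1 h2]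

/-- the mean of the ratio -/
lemma R_bd {k A l : ℝ} (hk : 0 ≤ k) (hA : 1 ≤ A) (h1 : A ≤ |l|) (h2 : |l| ≤ 2 * A) :
    ∫ ω, Real.exp (2 * lz k ω (Complex.I * l) + (-2) * lz k ω (A : ℂ)) ∂PG ≤ 4 * 9 ^ k * (1 + A) := by
  have hA0 : 0 ≤ A := by linarith
  rw [lz_two k _ _ (il_re l) (re_re hA0), sg_line, sg_real hA0, norm_real_half hA0]
  have hr : 0 < 1 + A := by linarith
  have h3 : sg (Complex.I * l) (A : ℂ) ≤ Real.log (2 * (1 + A)) := by
    unfold sg
    refine Real.log_le_log (half2_pos (il_re l) (re_re hA0)) ?_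
    rw [Complex.conj_ofReal]
    have e1 : (1 + (Complex.I * l + (A : ℂ)) / 2 : ℂ) = ((1 + A / 2 : ℝ) : ℂ) + Complex.I * ((l / 2 : ℝ) : ℂ) := by push_cast; ring
    rw [e1]
    refine (norm_add_le _ _).trans ?_
    rw [norm_mul, Complex.norm_I, one_mul, Complex.norm_real, Complex.norm_real, Real.norm_of_nonneg (by linarith), Real.norm_eq_abs, abs_div, abs_two]
    linarith
  have h4 : Real.log (1 + A / 2) - Real.log ‖1 + Complex.I * l / 2‖ ≤ Real.log 3 := by
    have h5 : A / 2 ≤ ‖1 + Complex.I * l / 2‖ := by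
      refine le_trans ?_ (Complex.abs_im_le_norm _)
      have e1 : (1 + Complex.I * l / 2 : ℂ).im = l / 2 := by
        have : (1 + Complex.I * l / 2 : ℂ) = ((1 : ℝ) : ℂ) + ((l / 2 : ℝ) : ℂ) * Complex.I := by push_cast; ring
        rw [this]
        simp
      rw [e1, abs_div, abs_two]
      linarith
    rw [← Real.log_div (by positivity) (half_pos (il_re l)).ne']
    refine Real.log_le_log (div_pos (by positivity) (half_pos (il_re l))) ?_
    rw [div_le_iff₀ (half_pos (il_re l))]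
    linarith
  have h6 : Real.log (2 * (1 + A)) = Real.log 2 + Real.log (1 + A) := Real.log_mul two_ne_zero hr.ne'
  have e9 : (4:ℝ) * 9 ^ k * (1 + A) = Real.exp (2 * Real.log 2 + 2 * k * Real.log 3 + Real.log (1 + A)) := by
    rw [Real.exp_add, Real.exp_add, Real.exp_log hr]
    congr 2
    · rw [show 2 * Real.log 2 = Real.log 2 + Real.log 2 from by ring, Real.exp_add, Real.exp_log two_pos]
      norm_num
    · rw [show (9:ℝ) = 3 ^ (2:ℝ) from by norm_num, ← Real.rpow_mul (by norm_num), Real.rpow_def_of_pos (by norm_num)]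
      congr 1
      ring
  rw [e9]
  refine Real.exp_le_exp.mpr ?_
  have h7 := mul_le_mul_of_nonneg_left h4 (show 0 ≤ 2 * k by linarith)
  rw [h6] at h3
  nlinarith

/-- a pointwise inequality -/
lemma young {X W u s τ : ℝ} (hX : 0 < X) (hW : 0 ≤ W) (hu0 : 0 < u) (hu1 : u ≤ 1) (hs : 0 < s) (hτ : 0 < τ) :
    (X ^ 2 * W) ^ (u / 2) ≤ s * X ^ (2 * u) + s⁻¹ * (W * τ ^ (u - 1) + τ ^ u) := by
  have h1 : W ^ u ≤ W * τ ^ (u - 1) + τ ^ u := by
    rcases le_or_gt W τ with h | h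
    · have h2 : W ^ u ≤ τ ^ u := Real.rpow_le_rpow hW h hu0.le
      have h3 : 0 ≤ W * τ ^ (u - 1) := by positivity
      linarith
    · have hW0 : 0 < W := hτ.trans h
      have h2 : W ^ (u - 1) ≤ τ ^ (u - 1) := Real.rpow_le_rpow_of_nonpos hτ h.le (by linarith)
      have h3 : W ^ u = W * W ^ (u - 1) := by
        rw [← Real.rpow_one_add' hW (by linarith)]
        congr 1
        ring
      rw [h3]
      have h4 : 0 ≤ τ ^ u := by positivity
      have := mul_le_mul_of_nonneg_left h2 hW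
      linarith
  have h2 : (X ^ 2 * W) ^ (u / 2) = X ^ u * W ^ (u / 2) := by
    rw [Real.mul_rpow (by positivity) hW, ← Real.rpow_natCast X 2, ← Real.rpow_mul hX.le]
    congr 2
    push_cast
    ring
  obtain ⟨a, ha⟩ : ∃ a : ℝ, a = X ^ u := ⟨_, rfl⟩
  obtain ⟨b, hb⟩ : ∃ b : ℝ, b = W ^ (u / 2) := ⟨_, rfl⟩
  have h3 : X ^ (2 * u) = a ^ 2 := by
    rw [ha, ← Real.rpow_natCast, ← Real.rpow_mul hX.le]
    congr 1
    push_cast
    ring
  have h4 : W ^ u = b ^ 2 := by
    rw [hb, ← Real.rpow_natCast, ← Real.rpow_mul hW]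
    congr 1
    push_cast
    ring
  rw [h2, ← ha, ← hb, h3]
  rw [h4] at h1
  have h5 : a * b ≤ s * a ^ 2 + s⁻¹ * b ^ 2 := by
    have h6 : 0 ≤ (s * a - b) ^ 2 + (s * a) ^ 2 + b ^ 2 := by positivity
    have h7 : s * (s * a ^ 2 + s⁻¹ * b ^ 2) = s ^ 2 * a ^ 2 + b ^ 2 := by
      field_simp
    have h8 : s * (a * b) ≤ s * (s * a ^ 2 + s⁻¹ * b ^ 2) := by
      rw [h7]
      nlinarith
    exact le_of_mul_le_mul_left h8 hs
  have h6 := mul_le_mul_of_nonneg_left h1 (inv_nonneg.mpr hs.le)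
  linarith

end Pool.Agent.X111.FZ
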