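import Pool.Agent.X111.FZ.Blk

set_option autoImplicit false
set_option linter.unusedSectionVars false

/-! Fractional moments of the sums of the field over the integers, `k > 1`. -/

namespace Pool.Agent.X111.FZ

open MeasureTheory ProbabilityTheory Filter Topology
open Pool.Agent.X111.FL

/-- the powers of the field at the points `e l` -/
noncomputable def vv (k e : ℝ) (ω : ℕ → ℝ × ℝ) (l : ℕ) : ℝ := Real.exp (2 * k * lz k ω (Complex.I * ((e * l : ℝ) : ℂ)))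

lemma vv_pos (k e : ℝ) (ω : ℕ → ℝ × ℝ) (l : ℕ) : 0 < vv k e ω l := Real.exp_pos _

lemma vv_meas (k e : ℝ) (l : ℕ) : AEMeasurable (fun ω => vv k e ω l) PG :=
  Real.measurable_exp.comp_aemeasurable ((lz_meas k (il_re _)).const_mul _)

lemma sum_pow_le {α : Type} {s : Finset α} {a : α → ℝ} (ha : ∀ i ∈ s, 0 ≤ a i) {k : ℝ} (hk : 1 ≤ k) : ∑ i ∈ s, a i ^ k ≤ (∑ i ∈ s, a i) ^ k := by
  have hS : 0 ≤ ∑ i ∈ s, a i := Finset.sum_nonneg ha
  have h1 : ∀ i ∈ s, a i ^ k ≤ a i * (∑ i ∈ s, a i) ^ (k - 1) := by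
    intro i hi
    have h2 : a i ^ k = a i * a i ^ (k - 1) := by
      rw [← Real.rpow_one_add' (ha i hi) (by linarith)]
      congr 1
      ring
    rw [h2]
    exact mul_le_mul_of_nonneg_left (Real.rpow_le_rpow (ha i hi) (Finset.single_le_sum ha hi) (by linarith)) (ha i hi)
  refine (Finset.sum_le_sum h1).trans (le_of_eq ?_)
  rw [← Finset.sum_mul, ← Real.rpow_one_add' hS (by linarith)]
  congr 1
  ring

lemma rpow_sum_le {α : Type} {s : Finset α} {a : α → ℝ} (ha : ∀ i ∈ s, 0 ≤ a i) {q : ℝ} (hq0 : 0 < q) (hq1 : q ≤ 1) :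
    (∑ i ∈ s, a i) ^ q ≤ ∑ i ∈ s, a i ^ q := by
  classical
  induction s using Finset.induction_on with
  | empty => simp [Real.zero_rpow hq0.ne']
  | insert i s hi ih =>
    rw [Finset.sum_insert hi, Finset.sum_insert hi]
    have h1 : ∀ j ∈ s, 0 ≤ a j := fun j hj => ha j (Finset.mem_insert_of_mem hj)
    refine (Real.rpow_add_le_add_rpow (ha i (Finset.mem_insert_self _ _)) (Finset.sum_nonneg h1) hq0.le hq1).trans ?_
    have := ih h1
    linarith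

/-- one block -/
lemma blk {k e u : ℝ} (hk : 1 < k) (he : |e| = 1) (hu0 : 0 < u) (hu1 : u ≤ 1) (huk : u ≤ k - 1) (m : ℕ) :
    Integrable (fun ω => (∑ l ∈ Finset.Ico (2 ^ m) (2 ^ (m + 1)), vv k e ω l) ^ (u / (2 * k))) PG ∧
    ∫ ω, (∑ l ∈ Finset.Ico (2 ^ m) (2 ^ (m + 1)), vv k e ω l) ^ (u / (2 * k)) ∂PG ≤
      (2 ^ (2 * u * (k - u)) + (4 * 9 ^ k + 1)) * ((2:ℝ) ^ m) ^ (-(u * (k - 1 - u / 2))) := by
  obtain ⟨A, hA⟩ : ∃ A : ℝ, A = 2 ^ m := ⟨_, rfl⟩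
  have hA1 : 1 ≤ A := by rw [hA]; exact one_le_pow₀ (by norm_num)
  obtain ⟨r, hr⟩ : ∃ r : ℝ, r = 1 + A := ⟨_, rfl⟩
  have hr0 : 0 < r := by rw [hr]; linarith
  obtain ⟨S, hS⟩ : ∃ S : Finset ℕ, S = Finset.Ico (2 ^ m) (2 ^ (m + 1)) := ⟨_, rfl⟩
  have hScard : (S.card : ℝ) = A := by
    rw [hS, Nat.card_Ico, hA]
    have : 2 ^ (m + 1) - 2 ^ m = 2 ^ m := by rw [pow_succ]; omega
    rw [this]
    push_cast
    rfl
  have hl : ∀ l ∈ S, A ≤ |e * (l : ℝ)| ∧ |e * (l : ℝ)| ≤ 2 * A := by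
    intro l hl
    rw [hS, Finset.mem_Ico] at hl
    rw [abs_mul, he, one_mul, abs_of_nonneg (Nat.cast_nonneg l), hA]
    constructor
    · exact_mod_cast hl.1
    · have h1 : l ≤ 2 * 2 ^ m := by rw [pow_succ] at hl; omega
      exact_mod_cast h1
  rw [← hS]
  obtain ⟨W, hW⟩ : ∃ W : (ℕ → ℝ × ℝ) → ℝ, W = fun ω => ∑ l ∈ S, Real.exp (2 * lz k ω (Complex.I * ((e * l : ℝ) : ℂ)) + (-2) * lz k ω (A : ℂ)) := ⟨_, rfl⟩
  have hW0 : ∀ ω, 0 ≤ W ω := fun ω => by rw [hW]; exact Finset.sum_nonneg fun l _ => (Real.exp_pos _).le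
  have hWi : Integrable W PG := by
    rw [hW]
    exact integrable_finsetSum _ fun l _ => lz_two_int k 2 (-2) (il_re _) (re_re (by linarith))
  have hWb : ∫ ω, W ω ∂PG ≤ 4 * 9 ^ k * r ^ 2 := by
    rw [hW, integral_finsetSum _ fun l _ => lz_two_int k 2 (-2) (il_re _) (re_re (by linarith))]
    have h1 := Finset.sum_le_sum fun l (h : l ∈ S) => R_bd (k := k) (A := A) (l := e * l) (by linarith) hA1 (hl l h).1 (hl l h).2
    refine h1.trans ?_
    rw [Finset.sum_const, nsmul_eq_mul, hScard, ← hr]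
    have h2 : A ≤ r := by rw [hr]; linarith
    have h3 : 0 ≤ 4 * 9 ^ k * r := by positivity
    nlinarith
  obtain ⟨X, hX⟩ : ∃ X : (ℕ → ℝ × ℝ) → ℝ, X = fun ω => Real.exp (lz k ω (A : ℂ)) := ⟨_, rfl⟩
  have hX0 : ∀ ω, 0 < X ω := fun ω => by rw [hX]; exact Real.exp_pos _
  have hX2 : ∀ ω, X ω ^ (2 * u) = Real.exp (2 * u * lz k ω (A : ℂ)) := by
    intro ω
    rw [hX]
    simp only
    rw [← Real.exp_mul]
    congr 1
    ring
  have hXi : Integrable (fun ω => X ω ^ (2 * u)) PG := by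
    simp_rw [hX2]
    exact lz_one_int k _ (re_re (by linarith))
  have hXb : ∫ ω, X ω ^ (2 * u) ∂PG ≤ 2 ^ (2 * u * (k - u)) * r ^ (u ^ 2 - 2 * u * k) := by
    simp_rw [hX2]
    rw [hr]
    exact X_bd hu0.le (by linarith) (by linarith)
  obtain ⟨s, hs⟩ : ∃ s : ℝ, s = r ^ (u + u * k - u ^ 2 / 2) := ⟨_, rfl⟩
  have hs0 : 0 < s := by rw [hs]; positivity
  have hτ0 : 0 < r ^ 2 := by positivity
  have hk0 : 0 < k := by linarith
  have hpt : ∀ ω, (∑ l ∈ S, vv k e ω l) ^ (u / (2 * k)) ≤ s * X ω ^ (2 * u) + s⁻¹ * (W ω * (r ^ 2) ^ (u - 1) + (r ^ 2) ^ u) := by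
    intro ω
    have h1 : ∑ l ∈ S, vv k e ω l ≤ (X ω ^ 2 * W ω) ^ k := by
      have h2 : ∑ l ∈ S, vv k e ω l = ∑ l ∈ S, (Real.exp (2 * lz k ω (Complex.I * ((e * l : ℝ) : ℂ)))) ^ k := by
        refine Finset.sum_congr rfl fun l _ => ?_
        unfold vv
        rw [← Real.exp_mul]
        congr 1
        ring
      have h3 : X ω ^ 2 * W ω = ∑ l ∈ S, Real.exp (2 * lz k ω (Complex.I * ((e * l : ℝ) : ℂ))) := by
        rw [hW, hX]
        simp only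
        rw [Finset.mul_sum]
        refine Finset.sum_congr rfl fun l _ => ?_
        rw [← Real.exp_nat_mul, ← Real.exp_add]
        congr 1
        push_cast
        ring
      rw [h2, h3]
      exact sum_pow_le (fun l _ => (Real.exp_pos _).le) hk.le
    have h4 : (∑ l ∈ S, vv k e ω l) ^ (u / (2 * k)) ≤ (X ω ^ 2 * W ω) ^ (u / 2) := by
      refine (Real.rpow_le_rpow (Finset.sum_nonneg fun l _ => (vv_pos k e ω l).le) h1 (by positivity)).trans (le_of_eq ?_)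
      rw [← Real.rpow_mul (mul_nonneg (by positivity) (hW0 ω))]
      congr 1
      field_simp
    exact h4.trans (young (hX0 ω) (hW0 ω) hu0 hu1 hs0 hτ0)
  have hmeas : AEStronglyMeasurable (fun ω => (∑ l ∈ S, vv k e ω l) ^ (u / (2 * k))) PG :=
    ((Finset.aemeasurable_fun_sum _ fun l _ => vv_meas k e l).pow_const _).aestronglyMeasurable
  have hRi : Integrable (fun ω => s * X ω ^ (2 * u) + s⁻¹ * (W ω * (r ^ 2) ^ (u - 1) + (r ^ 2) ^ u)) PG :=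
    (hXi.const_mul s).add (((hWi.mul_const _).add (integrable_const _)).const_mul _)
  have hI : Integrable (fun ω => (∑ l ∈ S, vv k e ω l) ^ (u / (2 * k))) PG := by
    refine hRi.mono' hmeas (Eventually.of_forall fun ω => ?_)
    rw [Real.norm_of_nonneg (Real.rpow_nonneg (Finset.sum_nonneg fun l _ => (vv_pos k e ω l).le) _)]
    exact hpt ω
  refine ⟨hI, (integral_mono hI hRi hpt).trans ?_⟩
  have i1 : Integrable (fun ω => W ω * (r ^ 2) ^ (u - 1) + (r ^ 2) ^ u) PG := (hWi.mul_const _).add (integrable_const _)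
  rw [integral_add (hXi.const_mul s) (i1.const_mul s⁻¹), integral_const_mul, integral_const_mul,
    integral_add (hWi.mul_const _) (integrable_const _), integral_mul_const, integral_const, probReal_univ, one_smul]
  obtain ⟨κ, hκ⟩ : ∃ κ : ℝ, κ = u * (k - 1 - u / 2) := ⟨_, rfl⟩
  have hκ0 : 0 ≤ κ := by rw [hκ]; exact mul_nonneg hu0.le (by linarith)
  have g1 : s * ∫ ω, X ω ^ (2 * u) ∂PG ≤ 2 ^ (2 * u * (k - u)) * r ^ (-κ) := by
    refine (mul_le_mul_of_nonneg_left hXb hs0.le).trans (le_of_eq ?_)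
    rw [hs, mul_left_comm, ← Real.rpow_add hr0]
    congr 2
    rw [hκ]
    ring
  have g2 : s⁻¹ * ((∫ ω, W ω ∂PG) * (r ^ 2) ^ (u - 1) + (r ^ 2) ^ u) ≤ (4 * 9 ^ k + 1) * r ^ (-κ) := by
    have h1 : (∫ ω, W ω ∂PG) * (r ^ 2) ^ (u - 1) ≤ 4 * 9 ^ k * (r ^ 2) ^ u := by
      refine (mul_le_mul_of_nonneg_right hWb (by positivity)).trans (le_of_eq ?_)
      have h2 : (r ^ 2) ^ u = r ^ 2 * (r ^ 2) ^ (u - 1) := by
        rw [← Real.rpow_one_add' hτ0.le (by linarith)]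
        congr 1
        ring
      rw [h2]
      ring
    have h2 : s⁻¹ * ((4 * 9 ^ k + 1) * (r ^ 2) ^ u) = (4 * 9 ^ k + 1) * r ^ (-κ) := by
      rw [mul_left_comm, hs, ← Real.rpow_neg hr0.le, ← Real.rpow_natCast r 2, ← Real.rpow_mul hr0.le, ← Real.rpow_add hr0]
      congr 2
      rw [hκ]
      push_cast
      ring
    rw [← h2]
    refine mul_le_mul_of_nonneg_left ?_ (inv_nonneg.mpr hs0.le)
    linarith
  have g3 : r ^ (-κ) ≤ ((2:ℝ) ^ m) ^ (-κ) := by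
    rw [← hA]
    exact Real.rpow_le_rpow_of_nonpos (by linarith) (by rw [hr]; linarith) (by linarith)
  rw [← hκ]
  have g4 : (0:ℝ) ≤ 2 ^ (2 * u * (k - u)) + (4 * 9 ^ k + 1) := by positivity
  calc s * ∫ ω, X ω ^ (2 * u) ∂PG + s⁻¹ * ((∫ ω, W ω ∂PG) * (r ^ 2) ^ (u - 1) + (r ^ 2) ^ u)
      ≤ (2 ^ (2 * u * (k - u)) + (4 * 9 ^ k + 1)) * r ^ (-κ) := by linarith
    _ ≤ _ := mul_le_mul_of_nonneg_left g3 g4

/-- all integers -/
theorem all_q {k : ℝ} (hk : 1 < k) : ∃ q C : ℝ, 0 < q ∧ q ≤ 1 ∧ 0 ≤ C ∧ ∀ e : ℝ, |e| = 1 → ∀ M : ℕ,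
    Integrable (fun ω => (∑ l ∈ Finset.Ico 1 (2 ^ M), vv k e ω l) ^ q) PG ∧ ∫ ω, (∑ l ∈ Finset.Ico 1 (2 ^ M), vv k e ω l) ^ q ∂PG ≤ C := by
  obtain ⟨u, hu⟩ : ∃ u : ℝ, u = min 1 (k - 1) := ⟨_, rfl⟩
  have hu0 : 0 < u := by rw [hu]; exact lt_min one_pos (by linarith)
  have hu1 : u ≤ 1 := by rw [hu]; exact min_le_left _ _
  have huk : u ≤ k - 1 := by rw [hu]; exact min_le_right _ _
  obtain ⟨κ, hκ⟩ : ∃ κ : ℝ, κ = u * (k - 1 - u / 2) := ⟨_, rfl⟩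
  have hκ0 : 0 < κ := by rw [hκ]; exact mul_pos hu0 (by linarith)
  obtain ⟨C3, hC3⟩ : ∃ C3 : ℝ, C3 = 2 ^ (2 * u * (k - u)) + (4 * 9 ^ k + 1) := ⟨_, rfl⟩
  have hC30 : 0 ≤ C3 := by rw [hC3]; positivity
  obtain ⟨ρ, hρ⟩ : ∃ ρ : ℝ, ρ = (2:ℝ) ^ (-κ) := ⟨_, rfl⟩
  have hρ0 : 0 < ρ := by rw [hρ]; positivity
  have hρ1 : ρ < 1 := by rw [hρ]; exact Real.rpow_lt_one_of_one_lt_of_neg (by norm_num) (by linarith)
  have hq0 : 0 < u / (2 * k) := by positivity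
  have hq1 : u / (2 * k) ≤ 1 := by
    rw [div_le_one (by positivity)]
    linarith
  refine ⟨u / (2 * k), C3 * (1 - ρ)⁻¹, hq0, hq1, mul_nonneg hC30 (inv_nonneg.mpr (by linarith)), fun e he M => ?_⟩
  have hb := fun m => blk hk he hu0 hu1 huk m
  have hsplit : ∀ ω, ∑ l ∈ Finset.Ico 1 (2 ^ M), vv k e ω l = ∑ m ∈ Finset.range M, ∑ l ∈ Finset.Ico (2 ^ m) (2 ^ (m + 1)), vv k e ω l := by
    intro ω
    induction M with
    | zero => simp
    | succ M ih =>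
      rw [Finset.sum_range_succ, ← ih, Finset.sum_Ico_consecutive _ Nat.one_le_two_pow (Nat.pow_le_pow_right (by norm_num) (by omega))]
  have hle : ∀ ω, (∑ l ∈ Finset.Ico 1 (2 ^ M), vv k e ω l) ^ (u / (2 * k)) ≤
      ∑ m ∈ Finset.range M, (∑ l ∈ Finset.Ico (2 ^ m) (2 ^ (m + 1)), vv k e ω l) ^ (u / (2 * k)) := by
    intro ω
    rw [hsplit]
    exact rpow_sum_le (fun m _ => Finset.sum_nonneg fun l _ => (vv_pos k e ω l).le) hq0 hq1
  have hRi : Integrable (fun ω => ∑ m ∈ Finset.range M, (∑ l ∈ Finset.Ico (2 ^ m) (2 ^ (m + 1)), vv k e ω l) ^ (u / (2 * k))) PG :=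
    integrable_finsetSum _ fun m _ => (hb m).1
  have hmeas : AEStronglyMeasurable (fun ω => (∑ l ∈ Finset.Ico 1 (2 ^ M), vv k e ω l) ^ (u / (2 * k))) PG :=
    ((Finset.aemeasurable_fun_sum _ fun l _ => vv_meas k e l).pow_const _).aestronglyMeasurable
  have hI : Integrable (fun ω => (∑ l ∈ Finset.Ico 1 (2 ^ M), vv k e ω l) ^ (u / (2 * k))) PG := by
    refine hRi.mono' hmeas (Eventually.of_forall fun ω => ?_)
    rw [Real.norm_of_nonneg (Real.rpow_nonneg (Finset.sum_nonneg fun l _ => (vv_pos k e ω l).le) _)]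
    exact hle ω
  refine ⟨hI, (integral_mono hI hRi hle).trans ?_⟩
  rw [integral_finsetSum _ fun m _ => (hb m).1]
  have h1 : ∀ m ∈ Finset.range M, ∫ ω, (∑ l ∈ Finset.Ico (2 ^ m) (2 ^ (m + 1)), vv k e ω l) ^ (u / (2 * k)) ∂PG ≤ C3 * ρ ^ m := by
    intro m _
    refine (hb m).2.trans (le_of_eq ?_)
    rw [← hC3, ← hκ, hρ, ← Real.rpow_natCast (2:ℝ) m, ← Real.rpow_mul (by norm_num), ← Real.rpow_natCast ((2:ℝ) ^ (-κ)) m, ← Real.rpow_mul (by norm_num)]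
    congr 2
    ring
  refine (Finset.sum_le_sum h1).trans ?_
  rw [← Finset.mul_sum]
  refine mul_le_mul_of_nonneg_left ?_ hC30
  have h2 := (summable_geometric_of_lt_one hρ0.le hρ1).sum_le_tsum (Finset.range M) fun m _ => by positivity
  rwa [tsum_geometric_of_lt_one hρ0.le hρ1] at h2

end Pool.Agent.X111.FZ
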