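import Pool.Agent.X111.FZ.Low

set_option autoImplicit false
set_option linter.unusedSectionVars false

/-! The maxima of the field over the integers: the lower bound, `k ≤ 1`. -/

namespace Pool.Agent.X111.FZ

open MeasureTheory ProbabilityTheory Filter Topology
open Pool.Agent.X111.FL

/-- the mean of the maximum over the integers -/
noncomputable def MX (k : ℝ) (N : ℕ) : ENNReal := ∫⁻ ω, ⨆ j : Iz N, ENNReal.ofReal (vz k ω j) ∂PG

lemma vz_mean (k : ℝ) (j : ℤ) : ∫⁻ ω, ENNReal.ofReal (vz k ω j) ∂PG = 1 := by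
  have h1 : Integrable (fun ω => vz k ω j) PG := lz_one_int k (2 * k) (il_re _)
  rw [← ofReal_integral_eq_lintegral_ofReal h1 (Eventually.of_forall fun ω => (vz_pos k ω j).le)]
  have h2 := lz_one k (2 * k) (il_re ((j : ℤ) : ℝ))
  unfold vz
  rw [h2, sg_line]
  simp

/-- the trivial upper bound -/
lemma MX_le (k : ℝ) (N : ℕ) : MX k N ≤ ENNReal.ofReal (2 * N + 1) := by
  have h1 : ∀ ω, ⨆ j : Iz N, ENNReal.ofReal (vz k ω j) ≤ ∑ j ∈ Finset.Icc (-(N : ℤ)) N, ENNReal.ofReal (vz k ω j) := by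
    intro ω
    refine iSup_le fun j => ?_
    exact Finset.single_le_sum (f := fun j => ENNReal.ofReal (vz k ω j)) (fun _ _ => zero_le) j.2
  refine (lintegral_mono h1).trans (le_of_eq ?_)
  have hm : ∀ j ∈ Finset.Icc (-(N : ℤ)) N, AEMeasurable (fun ω => ENNReal.ofReal (vz k ω j)) PG := fun j _ => (vz_meas k j).ennreal_ofReal
  rw [lintegral_finsetSum' _ hm]
  simp_rw [vz_mean]
  rw [Finset.sum_const, nsmul_eq_mul, mul_one, Int.card_Icc]
  have e1 : (((N : ℤ) + 1 - (-(N : ℤ))).toNat) = 2 * N + 1 := by omega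
  rw [e1, ← ENNReal.ofReal_natCast]
  push_cast
  rfl

/-- the points close to the boundary -/
noncomputable def bp (N : ℕ) (j : ℤ) : ℂ := (Complex.I * ((j : ℝ) : ℂ) - ((N : ℝ) : ℂ)) / (1 + ((N : ℝ) : ℂ))

lemma bp_eq (N : ℕ) (j : ℤ) : bp N j = ((-(N : ℝ) / (1 + N) : ℝ) : ℂ) + (((j : ℝ) / (1 + N) : ℝ) : ℂ) * Complex.I := by
  unfold bp
  have h1 : (1 + ((N : ℝ) : ℂ)) ≠ 0 := by
    have : (0:ℝ) < 1 + N := by positivity
    exact_mod_cast this.ne'
  push_cast at h1 ⊢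
  field_simp
  ring

lemma bp_re (N : ℕ) (j : ℤ) : (bp N j).re = -(N : ℝ) / (1 + N) := by
  rw [bp_eq, Complex.add_re, Complex.ofReal_re, Complex.re_ofReal_mul]
  simp

lemma bp_ok (N : ℕ) (j : ℤ) : -1 < (bp N j).re := by
  rw [bp_re, neg_div, neg_lt_neg_iff, div_lt_one (by positivity)]
  linarith

lemma bp_lo (N : ℕ) (j : ℤ) : 1 / 2 ≤ ‖1 + bp N j / 2‖ := by
  refine le_trans ?_ (Complex.re_le_norm _)
  have h1 := bp_ok N j
  simp
  linarith

lemma bp_hi (N : ℕ) {j : ℤ} (hj : j ∈ Finset.Icc (-(N : ℤ)) N) : ‖1 + bp N j / 2‖ ≤ 2 := by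
  have hN : (0:ℝ) < 1 + N := by positivity
  have h1 : |(j : ℝ)| ≤ N := by
    rw [Finset.mem_Icc] at hj
    rw [abs_le]
    constructor
    · exact_mod_cast hj.1
    · exact_mod_cast hj.2
  have h2 : ‖bp N j‖ ≤ 2 := by
    rw [bp_eq]
    refine (norm_add_le _ _).trans ?_
    rw [norm_mul, Complex.norm_I, mul_one, Complex.norm_real, Complex.norm_real, Real.norm_eq_abs, Real.norm_eq_abs, abs_div, abs_div, abs_of_pos hN, abs_neg,
      Nat.abs_cast, ← add_div, div_le_iff₀ hN]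
    linarith
  refine (norm_add_le _ _).trans ?_
  rw [norm_one, norm_div, Complex.norm_two]
  linarith

/-- the field close to the boundary -/
noncomputable def rb (N : ℕ) (ω : ℕ → ℝ × ℝ) (j : ℤ) : ℝ := (gf ω (bp N j / (bp N j + 2))).re

lemma rb_meas (N : ℕ) (j : ℤ) : AEMeasurable (fun ω => rb N ω j) PG :=
  (Complex.continuous_re.comp_aestronglyMeasurable (gf_meas _ (wd_norm (bp_ok N j)))).aemeasurable

/-- its exponential maximum -/
noncomputable def SB (N : ℕ) (ω : ℕ → ℝ × ℝ) : ENNReal := ⨆ j : Iz N, ENNReal.ofReal (Real.exp (rb N ω j))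

lemma SB_meas (N : ℕ) : AEMeasurable (SB N) PG :=
  AEMeasurable.iSup fun j => ENNReal.measurable_ofReal.comp_aemeasurable (Real.measurable_exp.comp_aemeasurable (rb_meas N j))

lemma SB_pow (N : ℕ) (ω : ℕ → ℝ × ℝ) {p : ℝ} (hp : 0 < p) : SB N ω ^ p = ⨆ j : Iz N, ENNReal.ofReal (Real.exp (p * rb N ω j)) := by
  unfold SB
  have h1 := (ENNReal.orderIsoRpow p hp).map_iSup (fun j : Iz N => ENNReal.ofReal (Real.exp (rb N ω j)))
  simp only [ENNReal.orderIsoRpow_apply] at h1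
  rw [h1]
  congr 1
  funext j
  rw [ENNReal.ofReal_rpow_of_pos (Real.exp_pos _), ← Real.exp_mul, mul_comm]

/-- the scaling -/
lemma MX_scale (k : ℝ) (N : ℕ) : MX k N = ENNReal.ofReal ((1 + (N : ℝ)) ^ (-(k ^ 2))) *
    ∫⁻ ω, ⨆ j : Iz N, ENNReal.ofReal (Real.exp (2 * k * lz k ω (bp N j))) ∂PG := by
  classical
  have hN : (0:ℝ) < 1 + N := by positivity
  obtain ⟨F, hF⟩ : ∃ F : (Option (Iz N) → ℝ) → ENNReal, F = fun v => ⨆ j : Iz N, ENNReal.ofReal (Real.exp (2 * k * v (some j))) := ⟨_, rfl⟩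
  have hFm : Measurable F := by
    rw [hF]
    exact Measurable.iSup fun j => ENNReal.measurable_ofReal.comp (Real.measurable_exp.comp ((measurable_pi_apply _).const_mul _))
  have hh : ∀ (c : ℝ) (v : Option (Iz N) → ℝ), F (fun j => v j + c) = ENNReal.ofReal (Real.exp (2 * k * c)) * F v := by
    intro c v
    rw [hF]
    simp only
    rw [ENNReal.mul_iSup]
    congr 1
    funext j
    rw [← ENNReal.ofReal_mul (Real.exp_pos _).le, ← Real.exp_add]
    congr 2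
    ring
  have h1 := inv k (ι := Option (Iz N)) none (fun j => j.elim 0 fun j => bp N j) (fun j => by
    cases j with
    | none => simp
    | some j => exact bp_ok N j) rfl (z0 := ((N : ℝ) : ℂ)) (re_re (Nat.cast_nonneg N)) F hFm hh
  have e2 : ∀ j : ℤ, af ((N : ℝ) : ℂ) (bp N j) = Complex.I * ((j : ℝ) : ℂ) := by
    intro j
    unfold af bp
    rw [Complex.ofReal_re]
    have h2 : (1 + ((N : ℝ) : ℂ)) ≠ 0 := by exact_mod_cast hN.ne'
    field_simp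
    ring
  rw [Complex.ofReal_re] at h1
  have e3 : ∀ ω, F (fun j : Option (Iz N) => lz k ω (af ((N : ℝ) : ℂ) (j.elim 0 fun j => bp N j))) = ⨆ j : Iz N, ENNReal.ofReal (vz k ω j) := by
    intro ω
    rw [hF]
    simp only [Option.elim, e2]
    rfl
  have e4 : ∀ ω, F (fun j : Option (Iz N) => lz k ω (j.elim 0 fun j => bp N j)) = ⨆ j : Iz N, ENNReal.ofReal (Real.exp (2 * k * lz k ω (bp N j))) := by
    intro ω
    rw [hF]
    rfl
  simp_rw [e3, e4] at h1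
  exact h1

lemma lz_bp {k : ℝ} (hk : 0 < k) (N : ℕ) (ω : ℕ → ℝ × ℝ) {j : ℤ} (hj : j ∈ Finset.Icc (-(N : ℤ)) N) :
    Real.exp (2 * k * lz k ω (bp N j)) ≤ 4 ^ (k ^ 2) * Real.exp (2 * k * rb N ω j) ∧
    4 ^ (-(k ^ 2)) * Real.exp (2 * k * rb N ω j) ≤ Real.exp (2 * k * lz k ω (bp N j)) := by
  have h1 := bp_lo N j
  have h2 := bp_hi N hj
  have h0 : 0 < ‖1 + bp N j / 2‖ := by linarith
  have h3 : -Real.log 2 ≤ Real.log ‖1 + bp N j / 2‖ := by
    rw [← Real.log_inv]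
    exact Real.log_le_log (by norm_num) (by linarith)
  have h4 : Real.log ‖1 + bp N j / 2‖ ≤ Real.log 2 := Real.log_le_log h0 h2
  have e1 : 2 * k * lz k ω (bp N j) = -(2 * k ^ 2) * Real.log ‖1 + bp N j / 2‖ + 2 * k * rb N ω j := by
    unfold lz rb
    ring
  have e2 : ∀ s : ℝ, (4:ℝ) ^ s = Real.exp (2 * s * Real.log 2) := by
    intro s
    rw [show (4:ℝ) = 2 ^ (2:ℝ) from by norm_num, ← Real.rpow_mul (by norm_num), Real.rpow_def_of_pos two_pos]
    congr 1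
    ring
  rw [e1, e2, e2, ← Real.exp_add, ← Real.exp_add]
  have h5 : 0 ≤ 2 * k ^ 2 := by positivity
  constructor
  · refine Real.exp_le_exp.mpr ?_
    nlinarith [mul_le_mul_of_nonneg_left h3 h5]
  · refine Real.exp_le_exp.mpr ?_
    nlinarith [mul_le_mul_of_nonneg_left h4 h5]

/-- comparison of the two means -/
lemma MX_MB {k : ℝ} (hk : 0 < k) (N : ℕ) :
    ∫⁻ ω, SB N ω ^ (2 * k) ∂PG ≤ ENNReal.ofReal (4 ^ (k ^ 2) * (1 + (N : ℝ)) ^ (k ^ 2)) * MX k N ∧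
    MX k N ≥ ENNReal.ofReal (4 ^ (-(k ^ 2)) * (1 + (N : ℝ)) ^ (-(k ^ 2))) * ∫⁻ ω, SB N ω ^ (2 * k) ∂PG := by
  have hN : (0:ℝ) < 1 + N := by positivity
  have h1 : ∀ ω, ENNReal.ofReal (4 ^ (-(k ^ 2))) * SB N ω ^ (2 * k) ≤ ⨆ j : Iz N, ENNReal.ofReal (Real.exp (2 * k * lz k ω (bp N j))) := by
    intro ω
    rw [SB_pow N ω (by positivity), ENNReal.mul_iSup]
    refine iSup_mono fun j => ?_
    rw [← ENNReal.ofReal_mul (by positivity)]
    exact ENNReal.ofReal_le_ofReal (lz_bp hk N ω j.2).2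
  have h2 : ENNReal.ofReal (4 ^ (-(k ^ 2))) * ∫⁻ ω, SB N ω ^ (2 * k) ∂PG ≤ ∫⁻ ω, ⨆ j : Iz N, ENNReal.ofReal (Real.exp (2 * k * lz k ω (bp N j))) ∂PG := by
    rw [← lintegral_const_mul'' _ ((SB_meas N).pow_const _)]
    exact lintegral_mono h1
  have h3 : ENNReal.ofReal (4 ^ (-(k ^ 2)) * (1 + (N : ℝ)) ^ (-(k ^ 2))) * ∫⁻ ω, SB N ω ^ (2 * k) ∂PG ≤ MX k N := by
    rw [MX_scale, mul_comm ((4:ℝ) ^ _), ENNReal.ofReal_mul (by positivity), mul_assoc]
    exact mul_le_mul_right h2 _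
  refine ⟨?_, h3⟩
  have h4 := mul_le_mul_right h3 (ENNReal.ofReal (4 ^ (k ^ 2) * (1 + (N : ℝ)) ^ (k ^ 2)))
  rw [← mul_assoc, ← ENNReal.ofReal_mul (by positivity)] at h4
  have e1 : (4:ℝ) ^ (k ^ 2) * (1 + (N : ℝ)) ^ (k ^ 2) * (4 ^ (-(k ^ 2)) * (1 + (N : ℝ)) ^ (-(k ^ 2))) = 1 := by
    rw [mul_mul_mul_comm, ← Real.rpow_add (by norm_num), ← Real.rpow_add hN, add_neg_cancel, Real.rpow_zero, Real.rpow_zero, one_mul]
  rw [e1, ENNReal.ofReal_one, one_mul] at h4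
  exact h4

end Pool.Agent.X111.FZ
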