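import Pool.Agent.X111.FZ.Conv

set_option autoImplicit false
set_option linter.unusedSectionVars false

/-! The maxima of the field over the integers: the lower bound, `k ≤ 1`, by convexity in the order. -/

namespace Pool.Agent.X111.FZ

open MeasureTheory ProbabilityTheory Filter Topology
open Pool.Agent.X111.FL

lemma MX_MB' {k : ℝ} (hk : 0 < k) (N : ℕ) :
    MX k N ≤ ENNReal.ofReal (4 ^ (k ^ 2) * (1 + (N : ℝ)) ^ (-(k ^ 2))) * ∫⁻ ω, SB N ω ^ (2 * k) ∂PG := by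
  have hN : (0:ℝ) < 1 + N := by positivity
  have h1 : ∀ ω, ⨆ j : Iz N, ENNReal.ofReal (Real.exp (2 * k * lz k ω (bp N j))) ≤ ENNReal.ofReal (4 ^ (k ^ 2)) * SB N ω ^ (2 * k) := by
    intro ω
    rw [SB_pow N ω (by positivity), ENNReal.mul_iSup]
    refine iSup_mono fun j => ?_
    rw [← ENNReal.ofReal_mul (by positivity)]
    exact ENNReal.ofReal_le_ofReal (lz_bp hk N ω j.2).1
  have h2 : ∫⁻ ω, ⨆ j : Iz N, ENNReal.ofReal (Real.exp (2 * k * lz k ω (bp N j))) ∂PG ≤ ENNReal.ofReal (4 ^ (k ^ 2)) * ∫⁻ ω, SB N ω ^ (2 * k) ∂PG := by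
    rw [← lintegral_const_mul'' _ ((SB_meas N).pow_const _)]
    exact lintegral_mono h1
  rw [MX_scale, mul_comm ((4:ℝ) ^ _), ENNReal.ofReal_mul (by positivity), mul_assoc]
  exact mul_le_mul_right h2 _

/-- convexity -/
lemma hold (N : ℕ) {k k1 k2 θ : ℝ} (hk : 0 < k) (hk2 : 0 < k2) (hθ0 : 0 < θ) (hθ1 : θ < 1) (h : k1 = θ * k + (1 - θ) * k2) :
    ∫⁻ ω, SB N ω ^ (2 * k1) ∂PG ≤ (∫⁻ ω, SB N ω ^ (2 * k) ∂PG) ^ θ * (∫⁻ ω, SB N ω ^ (2 * k2) ∂PG) ^ (1 - θ) := by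
  have hc : (1 / θ).HolderConjugate (1 / (1 - θ)) := by
    rw [Real.holderConjugate_iff]
    constructor
    · rw [lt_div_iff₀ hθ0]
      linarith
    · rw [one_div, one_div, inv_inv, inv_inv]
      ring
  have h1 := ENNReal.lintegral_mul_le_Lp_mul_Lq PG hc (f := fun ω => SB N ω ^ (2 * k * θ)) (g := fun ω => SB N ω ^ (2 * k2 * (1 - θ)))
    ((SB_meas N).pow_const _) ((SB_meas N).pow_const _)
  have hθ2 : 0 < 1 - θ := by linarith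
  have e1 : ∀ ω, ((fun ω => SB N ω ^ (2 * k * θ)) * fun ω => SB N ω ^ (2 * k2 * (1 - θ))) ω = SB N ω ^ (2 * k1) := by
    intro ω
    rw [Pi.mul_apply, ← ENNReal.rpow_add_of_nonneg _ _ (by positivity) (by positivity)]
    congr 1
    rw [h]
    ring
  have e2 : ∀ ω, (SB N ω ^ (2 * k * θ)) ^ (1 / θ) = SB N ω ^ (2 * k) := by
    intro ω
    rw [← ENNReal.rpow_mul]
    congr 1
    field_simp
  have e3 : ∀ ω, (SB N ω ^ (2 * k2 * (1 - θ))) ^ (1 / (1 - θ)) = SB N ω ^ (2 * k2) := by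
    intro ω
    rw [← ENNReal.rpow_mul]
    congr 1
    field_simp
  simp_rw [e1, e2, e3, one_div, inv_inv] at h1
  exact h1

/-- **The lower bound, `k ≤ 1`.** -/
theorem low1 {k η : ℝ} (hk : 0 < k) (hk1 : k ≤ 1) (hη : 0 < η) : ∃ c : ℝ, 0 < c ∧ ∀ N : ℕ,
    ENNReal.ofReal (c * (1 + (N : ℝ)) ^ (2 * k - k ^ 2 - η)) ≤ MX k N := by
  obtain ⟨ε, hε⟩ : ∃ ε : ℝ, ε = min 1 (η / 5) := ⟨_, rfl⟩
  have hε0 : 0 < ε := by rw [hε]; exact lt_min one_pos (by positivity)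
  have hε1 : ε ≤ 1 := by rw [hε]; exact min_le_left _ _
  have hεη : 5 * ε ≤ η := by
    have : ε ≤ η / 5 := by rw [hε]; exact min_le_right _ _
    linarith
  obtain ⟨k1, hk1e⟩ : ∃ k1 : ℝ, k1 = 1 + ε := ⟨_, rfl⟩
  obtain ⟨k2, hk2e⟩ : ∃ k2 : ℝ, k2 = 1 + 2 * ε := ⟨_, rfl⟩
  have hden : 0 < k2 - k := by rw [hk2e]; linarith
  obtain ⟨θ, hθ⟩ : ∃ θ : ℝ, θ = ε / (k2 - k) := ⟨_, rfl⟩
  have hθ0 : 0 < θ := by rw [hθ]; positivity
  have hθd : θ * (k2 - k) = ε := by rw [hθ]; field_simp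
  have hθ1 : θ < 1 := by
    rw [hθ, div_lt_one hden, hk2e]
    linarith
  have hcomb : k1 = θ * k + (1 - θ) * k2 := by
    rw [hk1e]
    have : θ * k + (1 - θ) * k2 = k2 - θ * (k2 - k) := by ring
    rw [this, hθd, hk2e]
    ring
  obtain ⟨c, hc0, hc⟩ := low (k := k1) (by rw [hk1e]; linarith)
  -- the constant
  obtain ⟨g, hg⟩ : ∃ g : ℝ, g = (1 + k1 ^ 2 - (1 - θ) * (1 + k2 ^ 2)) / θ - k ^ 2 := ⟨_, rfl⟩
  have hgθ : g * θ = 1 + k1 ^ 2 - (1 - θ) * (1 + k2 ^ 2) - θ * k ^ 2 := by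
    rw [hg]
    field_simp
  have hge : 2 * k - k ^ 2 - η ≤ g := by
    have h1 : g = 1 + k2 ^ 2 - (k2 + k1) * (k2 - k) - k ^ 2 := by
      have h2 : g * θ = (1 + k2 ^ 2 - (k2 + k1) * (k2 - k) - k ^ 2) * θ := by
        rw [hgθ]
        have h3 : (1 + k2 ^ 2 - (k2 + k1) * (k2 - k) - k ^ 2) * θ = (1 + k2 ^ 2) * θ - (k2 + k1) * (θ * (k2 - k)) - k ^ 2 * θ := by ring
        rw [h3, hθd]
        have h4 : k2 - k1 = ε := by rw [hk1e, hk2e]; ring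
        rw [← h4]
        ring
      exact mul_right_cancel₀ hθ0.ne' h2
    rw [h1, hk1e, hk2e]
    nlinarith
  obtain ⟨K, hK⟩ : ∃ K : ℝ, K = 4 ^ (k1 ^ 2) * ((4 ^ (k ^ 2)) ^ θ * (4 ^ (k2 ^ 2) * 2) ^ (1 - θ)) := ⟨_, rfl⟩
  have hK0 : 0 < K := by rw [hK]; positivity
  refine ⟨(c / K) ^ (1 / θ), by positivity, fun N => ?_⟩
  have hN : (0:ℝ) < 1 + N := by positivity
  have hN1 : (1:ℝ) ≤ 1 + N := by linarith [(Nat.cast_nonneg N : (0:ℝ) ≤ N)]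
  obtain ⟨n, hn⟩ : ∃ n : ℝ, n = 1 + (N : ℝ) := ⟨_, rfl⟩
  have hMt : MX k N ≠ ⊤ := ne_top_of_le_ne_top ENNReal.ofReal_ne_top (MX_le k N)
  obtain ⟨x, hx⟩ : ∃ x : ℝ, x = (MX k N).toReal := ⟨_, rfl⟩
  have hx0 : 0 ≤ x := by rw [hx]; exact ENNReal.toReal_nonneg
  have hMx : MX k N = ENNReal.ofReal x := by rw [hx, ENNReal.ofReal_toReal hMt]
  have hk10 : 0 < k1 := by rw [hk1e]; linarith
  have hk20 : 0 < k2 := by rw [hk2e]; linarith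
  have ha := (MX_MB hk N).1
  have hb := (MX_MB hk20 N).1.trans (mul_le_mul_right (MX_le k2 N) _)
  have hm := hold N hk hk20 hθ0 hθ1 hcomb
  have hL := (hc N).trans (MX_MB' hk10 N)
  rw [hMx, ← ENNReal.ofReal_mul (by positivity), ← hn] at ha
  rw [← ENNReal.ofReal_mul (by positivity), ← hn] at hb
  rw [← hn] at hL hN hN1 ⊢
  have h1 : ∫⁻ ω, SB N ω ^ (2 * k1) ∂PG ≤ ENNReal.ofReal ((4 ^ (k ^ 2) * n ^ (k ^ 2) * x) ^ θ * (4 ^ (k2 ^ 2) * n ^ (k2 ^ 2) * (2 * N + 1)) ^ (1 - θ)) := by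
    refine hm.trans ?_
    rw [ENNReal.ofReal_mul (by positivity), ← ENNReal.ofReal_rpow_of_nonneg (by positivity) hθ0.le, ← ENNReal.ofReal_rpow_of_nonneg (by positivity) (by linarith)]
    exact mul_le_mul' (ENNReal.rpow_le_rpow ha hθ0.le) (ENNReal.rpow_le_rpow hb (by linarith))
  have h2 := hL.trans (mul_le_mul_right h1 _)
  rw [← ENNReal.ofReal_mul (by positivity)] at h2
  have h3 := (ENNReal.ofReal_le_ofReal_iff (by positivity)).mp h2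
  -- the real inequality
  have h4 : c * n ≤ K * n ^ (1 - g * θ) * x ^ θ := by
    have e1 : c * n ≤ c * (2 * N + 1) := mul_le_mul_of_nonneg_left (by rw [hn]; linarith [(Nat.cast_nonneg N : (0:ℝ) ≤ N)]) hc0.le
    refine e1.trans (h3.trans ?_)
    have e2 : (4 ^ (k2 ^ 2) * n ^ (k2 ^ 2) * (2 * N + 1)) ^ (1 - θ) ≤ (4 ^ (k2 ^ 2) * 2 * n ^ (1 + k2 ^ 2)) ^ (1 - θ) := by
      refine Real.rpow_le_rpow (by positivity) ?_ (by linarith)
      rw [Real.rpow_add hN, Real.rpow_one]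
      have h5 : (2 * (N:ℝ) + 1) ≤ 2 * n := by rw [hn]; linarith
      have h6 : 0 ≤ (4:ℝ) ^ (k2 ^ 2) * n ^ (k2 ^ 2) := by positivity
      calc (4:ℝ) ^ (k2 ^ 2) * n ^ (k2 ^ 2) * (2 * N + 1) ≤ 4 ^ (k2 ^ 2) * n ^ (k2 ^ 2) * (2 * n) := mul_le_mul_of_nonneg_left h5 h6
        _ = _ := by ring
    have e3 : (4 ^ (k ^ 2) * n ^ (k ^ 2) * x) ^ θ = (4 ^ (k ^ 2)) ^ θ * n ^ (k ^ 2 * θ) * x ^ θ := by
      rw [Real.mul_rpow (by positivity) hx0, Real.mul_rpow (by positivity) (by positivity), ← Real.rpow_mul hN.le]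
    have e4 : (4 ^ (k2 ^ 2) * 2 * n ^ (1 + k2 ^ 2)) ^ (1 - θ) = (4 ^ (k2 ^ 2) * 2) ^ (1 - θ) * n ^ ((1 + k2 ^ 2) * (1 - θ)) := by
      rw [Real.mul_rpow (by positivity) (by positivity), ← Real.rpow_mul hN.le]
    have e5 : n ^ (1 - g * θ) = n ^ (-(k1 ^ 2)) * (n ^ (k ^ 2 * θ) * n ^ ((1 + k2 ^ 2) * (1 - θ))) := by
      rw [← Real.rpow_add hN, ← Real.rpow_add hN, hgθ]
      congr 1
      ring
    calc 4 ^ (k1 ^ 2) * n ^ (-(k1 ^ 2)) * ((4 ^ (k ^ 2) * n ^ (k ^ 2) * x) ^ θ * (4 ^ (k2 ^ 2) * n ^ (k2 ^ 2) * (2 * N + 1)) ^ (1 - θ))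
        ≤ 4 ^ (k1 ^ 2) * n ^ (-(k1 ^ 2)) * ((4 ^ (k ^ 2) * n ^ (k ^ 2) * x) ^ θ * (4 ^ (k2 ^ 2) * 2 * n ^ (1 + k2 ^ 2)) ^ (1 - θ)) := by
          refine mul_le_mul_of_nonneg_left (mul_le_mul_of_nonneg_left e2 (by positivity)) (by positivity)
      _ = K * n ^ (1 - g * θ) * x ^ θ := by
          rw [e3, e4, e5, hK]
          ring
  have h5 : c / K * n ^ (g * θ) ≤ x ^ θ := by
    have e1 : n ^ (1 - g * θ) = n / n ^ (g * θ) := by rw [Real.rpow_sub hN, Real.rpow_one]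
    rw [e1] at h4
    have hp : 0 < n ^ (g * θ) := by positivity
    rw [div_mul_eq_mul_div, div_le_iff₀ hK0]
    have h6 : K * (n / n ^ (g * θ)) * x ^ θ * (n ^ (g * θ)) = K * n * x ^ θ := by field_simp
    have h7 := mul_le_mul_of_nonneg_right h4 hp.le
    rw [h6] at h7
    have h8 : n * (c * n ^ (g * θ)) ≤ n * (x ^ θ * K) := by nlinarith
    exact le_of_mul_le_mul_left h8 hN
  have h6 : (c / K) ^ (1 / θ) * n ^ g ≤ x := by
    have h7 := Real.rpow_le_rpow (by positivity) h5 (show 0 ≤ 1 / θ by positivity)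
    rw [Real.mul_rpow (by positivity) (by positivity), ← Real.rpow_mul hN.le, ← Real.rpow_mul hx0] at h7
    have e1 : g * θ * (1 / θ) = g := by field_simp
    have e2 : θ * (1 / θ) = 1 := by field_simp
    rwa [e1, e2, Real.rpow_one] at h7
  rw [hMx]
  refine ENNReal.ofReal_le_ofReal (le_trans ?_ h6)
  exact mul_le_mul_of_nonneg_left (Real.rpow_le_rpow_of_exponent_le hN1 hge) (by positivity)

end Pool.Agent.X111.FZ
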