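import Pool.Agent.X111.FZ.Up

set_option autoImplicit false
set_option linter.unusedSectionVars false

/-! The exponents of the mean maxima of the field. -/

namespace Pool.Agent.X111.FZ

open MeasureTheory ProbabilityTheory Filter Topology
open Pool.Agent.X111.FL

/-- comparison with the maxima over the integers -/
lemma MX_LM {k H : ℝ} (hk : 0 < k) (hH : 0 ≤ H) : MX k ⌊H⌋₊ ≤ ENNReal.ofReal (LM k H) := by
  rw [LM_lint hk hH]
  unfold MX
  refine lintegral_mono_ae ?_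
  filter_upwards [Gd_ae] with ω hω
  refine iSup_le fun j => ENNReal.ofReal_le_ofReal ?_
  have hj : ((j : ℤ) : ℝ) ∈ Set.Icc (-H) H := by
    have h1 := Finset.mem_Icc.mp j.2
    have h2 := Nat.floor_le hH
    constructor
    · have : (-(⌊H⌋₊ : ℝ)) ≤ ((j : ℤ) : ℝ) := by exact_mod_cast h1.1
      linarith
    · have : ((j : ℤ) : ℝ) ≤ (⌊H⌋₊ : ℝ) := by exact_mod_cast h1.2
      linarith
  have h3 := (pth H (fi k ω)).norm_coe_le_norm ⟨(j : ℤ), hj⟩
  rw [pth_fi k hω] at h3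
  have h4 : vz k ω j = ‖fi k ω (Complex.I * (((j : ℤ) : ℝ) : ℂ))‖ ^ (2 * k) := by
    unfold vz
    rw [exp_lz k ω (il_re _), ← Real.exp_mul]
    congr 1
    ring
  rw [h4]
  exact Real.rpow_le_rpow (norm_nonneg _) h3 (by positivity)

/-- the linear lower bound -/
lemma LM_low {k : ℝ} (hk : 1 < k) : ∃ c : ℝ, 0 < c ∧ ∀ H : ℝ, 0 ≤ H → c * (1 + H) ≤ LM k H := by
  obtain ⟨c, hc0, hc⟩ := low hk
  refine ⟨c / 2, by positivity, fun H hH => ?_⟩
  have h1 := (hc ⌊H⌋₊).trans (MX_LM (by linarith) hH)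
  have h2 := (ENNReal.ofReal_le_ofReal_iff (LM_nonneg k H)).mp h1
  refine le_trans ?_ h2
  have h3 := Nat.lt_floor_add_one H
  have h4 : (0:ℝ) ≤ (⌊H⌋₊ : ℝ) := Nat.cast_nonneg _
  nlinarith

/-- the lower bound, `k ≤ 1` -/
lemma LM_low1 {k η : ℝ} (hk : 0 < k) (hk1 : k ≤ 1) (hη : 0 < η) : ∃ c : ℝ, 0 < c ∧ ∀ H : ℝ, 0 ≤ H → c * (1 + (⌊H⌋₊ : ℝ)) ^ (2 * k - k ^ 2 - η) ≤ LM k H := by
  obtain ⟨c, hc0, hc⟩ := low1 hk hk1 hη
  refine ⟨c, hc0, fun H hH => ?_⟩
  exact (ENNReal.ofReal_le_ofReal_iff (LM_nonneg k H)).mp ((hc ⌊H⌋₊).trans (MX_LM hk hH))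

/-- the exponent from two bounds -/
lemma exponent {f : ℝ → ℝ} {g : ℝ} (hg : 0 < g) (hup : ∃ C : ℝ, 0 < C ∧ ∀ H : ℝ, 0 ≤ H → f H ≤ C * (1 + H) ^ g)
    (hlo : ∀ η : ℝ, 0 < η → ∃ c : ℝ, 0 < c ∧ ∀ H : ℝ, 0 ≤ H → c * (1 + (⌊H⌋₊ : ℝ)) ^ (g - η) ≤ f H) :
    Tendsto (fun H : ℝ => Real.log (f H) / Real.log H) atTop (𝓝 g) := by
  obtain ⟨C, hC0, hC⟩ := hup
  have hlog := Real.tendsto_log_atTop
  have hfp : ∀ H : ℝ, 0 ≤ H → 0 < f H := by
    intro H hH
    obtain ⟨c, hc0, hc⟩ := hlo 1 one_pos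
    exact lt_of_lt_of_le (by positivity) (hc H hH)
  rw [Metric.tendsto_nhds]
  intro e he
  obtain ⟨η, hη⟩ : ∃ η : ℝ, η = min (e / 2) (g / 2) := ⟨_, rfl⟩
  have hη0 : 0 < η := by rw [hη]; exact lt_min (by positivity) (by positivity)
  have hη1 : η ≤ e / 2 := by rw [hη]; exact min_le_left _ _
  have hη2 : η ≤ g / 2 := by rw [hη]; exact min_le_right _ _
  obtain ⟨c, hc0, hc⟩ := hlo η hη0
  have t1 : Tendsto (fun H : ℝ => (Real.log C + g * Real.log 2) / Real.log H) atTop (𝓝 0) := tendsto_const_nhds.div_atTop hlog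
  have t2 : Tendsto (fun H : ℝ => Real.log c / Real.log H) atTop (𝓝 0) := tendsto_const_nhds.div_atTop hlog
  filter_upwards [eventually_gt_atTop 1, (Metric.tendsto_nhds.mp t1) (e / 2) (by positivity), (Metric.tendsto_nhds.mp t2) (e / 2) (by positivity)]
    with H hH h1 h2
  have hl : 0 < Real.log H := Real.log_pos hH
  have hH0 : 0 < H := by linarith
  rw [Real.dist_eq, sub_zero, abs_lt] at h1 h2
  rw [Real.dist_eq, abs_lt]
  have hF := hfp H hH0.le
  constructor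
  · -- lower
    have h3 : c * H ^ (g - η) ≤ f H := by
      refine le_trans ?_ (hc H hH0.le)
      refine mul_le_mul_of_nonneg_left (Real.rpow_le_rpow hH0.le ?_ (by linarith)) hc0.le
      have := Nat.lt_floor_add_one H
      linarith
    have h4 := Real.log_le_log (by positivity) h3
    rw [Real.log_mul hc0.ne' (by positivity), Real.log_rpow hH0] at h4
    have h5 : Real.log c / Real.log H + (g - η) ≤ Real.log (f H) / Real.log H := by
      rw [div_add' _ _ _ hl.ne']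
      exact div_le_div_of_nonneg_right h4 hl.le
    linarith [h2.1]
  · have h3 : f H ≤ C * (2 * H) ^ g := by
      refine (hC H hH0.le).trans (mul_le_mul_of_nonneg_left (Real.rpow_le_rpow (by linarith) (by linarith) hg.le) hC0.le)
    have h4 := Real.log_le_log hF h3
    rw [Real.log_mul hC0.ne' (by positivity), Real.log_rpow (by positivity), Real.log_mul two_ne_zero hH0.ne'] at h4
    have h5 : Real.log (f H) / Real.log H ≤ (Real.log C + g * Real.log 2) / Real.log H + g := by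
      rw [div_add' _ _ _ hl.ne']
      refine div_le_div_of_nonneg_right (h4.trans (le_of_eq ?_)) hl.le
      ring
    linarith [h1.2]

/-- **The exponent, `k ≤ 1`.** -/
theorem exp_one {k : ℝ} (hk : 0 < k) (hk1 : k ≤ 1) : Tendsto (fun H : ℝ => Real.log (LM k H) / Real.log H) atTop (𝓝 (2 * k - k ^ 2)) :=
  exponent (by nlinarith) (up_one hk hk1) fun _ hη => LM_low1 hk hk1 hη

end Pool.Agent.X111.FZ
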