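import Pool.Agent.X111.FL.Main

set_option autoImplicit false
set_option linter.unusedSectionVars false

/-! Exponential moments of the Gaussian power series with complex exponents. -/

namespace Pool.Agent.X111.FZ

open MeasureTheory ProbabilityTheory Filter Topology
open Pool.Agent.X111.JD (ga ga_exp nn nn_cont nn_le nn_int)
open Pool.Agent.X111.FL

variable {ι : Type} [Fintype ι]

lemma ex_rad' (w : ι → ℂ) (hw : ∀ j, ‖w j‖ < 1) : ∃ r : ℝ, 0 ≤ r ∧ r < 1 ∧ ∀ j, ‖w j‖ ≤ r := by
  refine ⟨((Finset.univ.sup fun j => ‖w j‖₊ : NNReal) : ℝ), NNReal.coe_nonneg _, ?_, fun j => ?_⟩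
  · have : (Finset.univ.sup fun j => ‖w j‖₊ : NNReal) < 1 := by
      rw [Finset.sup_lt_iff (by exact one_pos)]
      intro j _
      exact_mod_cast hw j
    exact_mod_cast this
  · have : ‖w j‖₊ ≤ Finset.univ.sup fun j => ‖w j‖₊ := Finset.le_sup (f := fun j => ‖w j‖₊) (Finset.mem_univ j)
    exact_mod_cast this

/-- the exponential moments with complex exponents -/
theorem gf_gen (w : ι → ℂ) (hw : ∀ j, ‖w j‖ < 1) (x y : ι → ℂ) :
    ∫ ω, Complex.exp (∑ j, x j * gf ω (w j) + ∑ j, y j * (starRingEnd ℂ) (gf ω (w j))) ∂PG =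
    Complex.exp (∑ j, ∑ l, x j * y l * -Complex.log (1 - w j * (starRingEnd ℂ) (w l))) := by
  obtain ⟨r, hr0, hr1, hwr⟩ := ex_rad' w hw
  obtain ⟨A, hA⟩ : ∃ A : ℕ → ℂ, A = fun m : ℕ => ∑ j, x j * (w j ^ (m + 1) / (Real.sqrt (m + 1) : ℂ)) := ⟨_, rfl⟩
  obtain ⟨B, hB⟩ : ∃ B : ℕ → ℂ, B = fun m : ℕ => ∑ j, y j * (starRingEnd ℂ) (w j ^ (m + 1) / (Real.sqrt (m + 1) : ℂ)) := ⟨_, rfl⟩
  obtain ⟨c, hc⟩ : ∃ c : ℝ, c = (∑ j, ‖x j‖) + ∑ j, ‖y j‖ := ⟨_, rfl⟩
  have hAn : ∀ m, ‖A m‖ ≤ (∑ j, ‖x j‖) * r ^ (m + 1) := by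
    intro m
    rw [hA, Finset.sum_mul]
    refine (norm_sum_le _ _).trans (Finset.sum_le_sum fun j _ => ?_)
    rw [norm_mul]
    exact mul_le_mul_of_nonneg_left (coef_norm (hwr j) m) (norm_nonneg _)
  have hBn : ∀ m, ‖B m‖ ≤ (∑ j, ‖y j‖) * r ^ (m + 1) := by
    intro m
    rw [hB, Finset.sum_mul]
    refine (norm_sum_le _ _).trans (Finset.sum_le_sum fun j _ => ?_)
    rw [norm_mul, RCLike.norm_conj]
    exact mul_le_mul_of_nonneg_left (coef_norm (hwr j) m) (norm_nonneg _)
  -- the left side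
  have hL : Tendsto (fun N => ∫ ω, Complex.exp (∑ m ∈ Finset.range N, (A m * nn (ω m) + B m * (starRingEnd ℂ) (nn (ω m)))) ∂PG) atTop
      (𝓝 (∫ ω, Complex.exp (∑ j, x j * gf ω (w j) + ∑ j, y j * (starRingEnd ℂ) (gf ω (w j))) ∂PG)) := by
    refine tendsto_integral_of_dominated_convergence (fun ω => Real.exp (c * mj r ω)) (fun N => ?_) (mj_exp hr0 hr1 c) (fun N => ?_) ?_
    · refine Complex.continuous_exp.comp_aestronglyMeasurable (Measurable.aestronglyMeasurable ?_)
      refine Finset.measurable_sum _ fun m _ => ?_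
      have h1 := nn_cont.measurable.comp (measurable_pi_apply (X := fun _ : ℕ => ℝ × ℝ) m)
      exact (h1.const_mul _).add ((Complex.continuous_conj.measurable.comp h1).const_mul _)
    · filter_upwards [Gd_ae] with ω hω
      rw [Complex.norm_exp]
      refine Real.exp_le_exp.mpr ((Complex.re_le_norm _).trans ((norm_sum_le _ _).trans ?_))
      have h1 : ∀ m ∈ Finset.range N, ‖A m * nn (ω m) + B m * (starRingEnd ℂ) (nn (ω m))‖ ≤ c * (r ^ (m + 1) * ‖nn (ω m)‖) := by
        intro m _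
        refine (norm_add_le _ _).trans ?_
        rw [norm_mul, norm_mul, RCLike.norm_conj, hc, add_mul, ← mul_assoc, ← mul_assoc]
        exact add_le_add (mul_le_mul_of_nonneg_right (hAn m) (norm_nonneg _)) (mul_le_mul_of_nonneg_right (hBn m) (norm_nonneg _))
      refine (Finset.sum_le_sum h1).trans ?_
      rw [← Finset.mul_sum]
      have hc0 : 0 ≤ c := by rw [hc]; positivity
      refine mul_le_mul_of_nonneg_left ?_ hc0
      unfold mj
      exact (Gd_sum hω hr0 hr1).sum_le_tsum _ fun m _ => by positivity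
    · filter_upwards [Gd_ae] with ω hω
      refine (Complex.continuous_exp.tendsto _).comp ?_
      have h1 : HasSum (fun m => A m * nn (ω m)) (∑ j, x j * gf ω (w j)) := by
        have h2 : HasSum (fun m => ∑ j, x j * (nn (ω m) * (w j ^ (m + 1) / (Real.sqrt (m + 1) : ℂ)))) (∑ j, x j * gf ω (w j)) :=
          hasSum_sum fun j _ => (gf_summable hω (hw j)).hasSum.mul_left _
        refine h2.congr_fun fun m => ?_
        rw [hA, Finset.sum_mul]
        refine Finset.sum_congr rfl fun j _ => ?_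
        ring
      have h3 : HasSum (fun m => B m * (starRingEnd ℂ) (nn (ω m))) (∑ j, y j * (starRingEnd ℂ) (gf ω (w j))) := by
        have h2 : HasSum (fun m => ∑ j, y j * (starRingEnd ℂ) (nn (ω m) * (w j ^ (m + 1) / (Real.sqrt (m + 1) : ℂ))))
            (∑ j, y j * (starRingEnd ℂ) (gf ω (w j))) :=
          hasSum_sum fun j _ => ((gf_summable hω (hw j)).hasSum.map (starRingEnd ℂ) Complex.continuous_conj).mul_left _
        refine h2.congr_fun fun m => ?_
        rw [hB, Finset.sum_mul]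
        refine Finset.sum_congr rfl fun j _ => ?_
        rw [map_mul]
        ring
      exact (h1.add h3).tendsto_sum_nat
  -- the right side
  have hR : Tendsto (fun N => ∫ ω, Complex.exp (∑ m ∈ Finset.range N, (A m * nn (ω m) + B m * (starRingEnd ℂ) (nn (ω m)))) ∂PG) atTop
      (𝓝 (Complex.exp (∑ j, ∑ l, x j * y l * -Complex.log (1 - w j * (starRingEnd ℂ) (w l))))) := by
    simp_rw [trunc_exp]
    refine (Complex.continuous_exp.tendsto _).comp ?_
    have h1 : HasSum (fun m : ℕ => ∑ j, ∑ l, x j * y l * ((w j * (starRingEnd ℂ) (w l)) ^ (m + 1) / (m + 1)))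
        (∑ j, ∑ l, x j * y l * -Complex.log (1 - w j * (starRingEnd ℂ) (w l))) := by
      refine hasSum_sum fun j _ => hasSum_sum fun l _ => HasSum.mul_left _ ?_
      refine Complex.hasSum_taylorSeries_neg_log' ?_
      rw [norm_mul, RCLike.norm_conj]
      have := hw j
      have := hw l
      have := norm_nonneg (w j)
      have := norm_nonneg (w l)
      nlinarith
    have h2 : HasSum (fun m => A m * B m) (∑ j, ∑ l, x j * y l * -Complex.log (1 - w j * (starRingEnd ℂ) (w l))) := by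
      refine h1.congr_fun fun m => ?_
      rw [hA, hB, Finset.sum_mul_sum]
      refine Finset.sum_congr rfl fun j _ => Finset.sum_congr rfl fun l _ => ?_
      rw [map_div₀, map_pow, Complex.conj_ofReal]
      have h3 : ((Real.sqrt ((m : ℝ) + 1) : ℝ) : ℂ) * ((Real.sqrt ((m : ℝ) + 1) : ℝ) : ℂ) = (m : ℂ) + 1 := by
        rw [← Complex.ofReal_mul, Real.mul_self_sqrt (by positivity)]
        push_cast
        rfl
      rw [mul_mul_mul_comm, div_mul_div_comm, h3, mul_pow]
    exact h2.tendsto_sum_nat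
  exact tendsto_nhds_unique hL hR

/-- the exponential moments of the real part -/
theorem rf_exp (w : ι → ℂ) (hw : ∀ j, ‖w j‖ < 1) (c : ι → ℂ) :
    ∫ ω, Complex.exp (∑ j, c j * ((gf ω (w j)).re : ℂ)) ∂PG =
    Complex.exp (1 / 4 * ∑ j, ∑ l, c j * c l * ((-Real.log ‖1 - w j * (starRingEnd ℂ) (w l)‖ : ℝ) : ℂ)) := by
  have h1 := gf_gen w hw (fun j => c j / 2) (fun j => c j / 2)
  have e1 : ∀ ω, ∑ j, c j / 2 * gf ω (w j) + ∑ j, c j / 2 * (starRingEnd ℂ) (gf ω (w j)) = ∑ j, c j * ((gf ω (w j)).re : ℂ) := by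
    intro ω
    rw [← Finset.sum_add_distrib]
    refine Finset.sum_congr rfl fun j _ => ?_
    rw [Complex.re_eq_add_conj]
    ring
  simp_rw [e1] at h1
  rw [h1]
  congr 1
  have e2 : ∑ j, ∑ l, c j / 2 * (c l / 2) * -Complex.log (1 - w j * (starRingEnd ℂ) (w l)) =
      ∑ j, ∑ l, c j / 2 * (c l / 2) * -(starRingEnd ℂ) (Complex.log (1 - w j * (starRingEnd ℂ) (w l))) := by
    rw [Finset.sum_comm]
    refine Finset.sum_congr rfl fun j _ => Finset.sum_congr rfl fun l _ => ?_
    have hn : ‖w l * (starRingEnd ℂ) (w j)‖ < 1 := by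
      rw [norm_mul, RCLike.norm_conj]
      have := hw j
      have := hw l
      have := norm_nonneg (w j)
      have := norm_nonneg (w l)
      nlinarith
    have hre : 0 < (1 - w l * (starRingEnd ℂ) (w j)).re := by
      rw [Complex.sub_re, Complex.one_re]
      have := Complex.re_le_norm (w l * (starRingEnd ℂ) (w j))
      linarith
    have harg : (1 - w j * (starRingEnd ℂ) (w l)).arg ≠ Real.pi := by
      have e4 : 1 - w j * (starRingEnd ℂ) (w l) = (starRingEnd ℂ) (1 - w l * (starRingEnd ℂ) (w j)) := by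
        simp only [map_sub, map_one, map_mul, Complex.conj_conj]
        ring
      rw [e4]
      intro h
      have h5 : ((starRingEnd ℂ) (1 - w l * (starRingEnd ℂ) (w j))).re < 0 := (Complex.arg_eq_pi_iff.mp h).1
      rw [Complex.conj_re] at h5
      linarith
    rw [← Complex.log_conj _ harg]
    have e5 : (starRingEnd ℂ) (1 - w j * (starRingEnd ℂ) (w l)) = 1 - w l * (starRingEnd ℂ) (w j) := by
      simp only [map_sub, map_one, map_mul, Complex.conj_conj]
      ring
    rw [e5]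
    ring
  have e3 : (2 : ℂ) * ∑ j, ∑ l, c j / 2 * (c l / 2) * -Complex.log (1 - w j * (starRingEnd ℂ) (w l)) =
      2 * (1 / 4 * ∑ j, ∑ l, c j * c l * ((-Real.log ‖1 - w j * (starRingEnd ℂ) (w l)‖ : ℝ) : ℂ)) := by
    rw [two_mul]
    nth_rewrite 2 [e2]
    rw [← Finset.sum_add_distrib, Finset.mul_sum, Finset.mul_sum]
    refine Finset.sum_congr rfl fun j _ => ?_
    rw [← Finset.sum_add_distrib, Finset.mul_sum, Finset.mul_sum]
    refine Finset.sum_congr rfl fun l _ => ?_
    have e6 := Complex.add_conj (Complex.log (1 - w j * (starRingEnd ℂ) (w l)))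
    rw [Complex.log_re] at e6
    push_cast at e6 ⊢
    linear_combination (-(c j / 2 * (c l / 2))) * e6
  exact mul_left_cancel₀ two_ne_zero e3

end Pool.Agent.X111.FZ
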