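import Pool.Agent.X111.FZ.Lz

set_option autoImplicit false
set_option linter.unusedSectionVars false

/-! The invariance of the limit field under the affine maps of the half plane. -/

namespace Pool.Agent.X111.FZ

open MeasureTheory ProbabilityTheory Filter Topology
open Pool.Agent.X111.FL

variable {ι : Type} [Fintype ι]

/-- the affine map -/
noncomputable def af (z0 u : ℂ) : ℂ := z0 + (1 + z0.re) * u

lemma af_re (z0 u : ℂ) : (af z0 u).re = z0.re + (1 + z0.re) * u.re := by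
  unfold af
  simp

lemma af_ok {z0 u : ℂ} (hz0 : -1 < z0.re) (hu : -1 < u.re) : -1 < (af z0 u).re := by
  rw [af_re]
  nlinarith

lemma af_zero (z0 : ℂ) : af z0 0 = z0 := by
  unfold af
  simp

lemma sg_af {z0 u v : ℂ} (hz0 : -1 < z0.re) (hu : -1 < u.re) (hv : -1 < v.re) : sg (af z0 u) (af z0 v) = Real.log (1 + z0.re) + sg u v := by
  unfold sg
  have e1 : 1 + (af z0 u + (starRingEnd ℂ) (af z0 v)) / 2 = ((1 + z0.re : ℝ) : ℂ) * (1 + (u + (starRingEnd ℂ) v) / 2) := by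
    unfold af
    simp only [map_add, map_mul, map_one, Complex.conj_ofReal]
    have h1 := Complex.add_conj z0
    push_cast at h1 ⊢
    linear_combination (1 / 2) * h1
  rw [e1, norm_mul, Complex.norm_real, Real.norm_of_nonneg (by linarith), Real.log_mul (by linarith) (half2_pos hu hv).ne']

lemma lz_vec_meas (k : ℝ) (z : ι → ℂ) (hz : ∀ j, -1 < (z j).re) :
    AEMeasurable (fun ω => (WithLp.toLp 2 (fun j => lz k ω (z j)) : EuclideanSpace ℝ ι)) PG :=
  (PiLp.continuous_toLp 2 (fun _ : ι => ℝ)).measurable.comp_aemeasurable (aemeasurable_pi_lambda _ fun j => lz_meas k (hz j))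

/-- **Invariance.** -/
theorem inv (k : ℝ) (i0 : ι) (u : ι → ℂ) (hu : ∀ j, -1 < (u j).re) (hu0 : u i0 = 0) {z0 : ℂ} (hz0 : -1 < z0.re)
    (F : (ι → ℝ) → ENNReal) (hF : Measurable F) (hom : ∀ (c : ℝ) (v : ι → ℝ), F (fun j => v j + c) = ENNReal.ofReal (Real.exp (2 * k * c)) * F v) :
    ∫⁻ ω, F (fun j => lz k ω (af z0 (u j))) ∂PG = ENNReal.ofReal ((1 + z0.re) ^ (-(k ^ 2))) * ∫⁻ ω, F (fun j => lz k ω (u j)) ∂PG := by
  classical
  have hx : 0 < 1 + z0.re := by linarith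
  obtain ⟨z, hz⟩ : ∃ z : ι → ℂ, z = fun j => af z0 (u j) := ⟨_, rfl⟩
  have hz1 : ∀ j, -1 < (z j).re := fun j => by rw [hz]; exact af_ok hz0 (hu j)
  have hsg : ∀ j l, sg (z j) (z l) = Real.log (1 + z0.re) + sg (u j) (u l) := fun j l => by rw [hz]; exact sg_af hz0 (hu j) (hu l)
  obtain ⟨dn, hdn⟩ : ∃ dn : (ℕ → ℝ × ℝ) → ENNReal, dn = fun ω => ENNReal.ofReal (Real.exp (2 * k * lz k ω (z i0))) := ⟨_, rfl⟩
  have hdm : AEMeasurable dn PG := by
    rw [hdn]
    exact ENNReal.measurable_ofReal.comp_aemeasurable (Real.measurable_exp.comp_aemeasurable ((lz_meas k (hz1 i0)).const_mul _))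
  have hdi : Integrable (fun ω => Real.exp (2 * k * lz k ω (z i0))) PG := by
    have h1 := lz_int k z hz1 (fun j => if j = i0 then 2 * k else 0)
    refine h1.congr (Eventually.of_forall fun ω => ?_)
    show Real.exp (∑ j, (if j = i0 then 2 * k else 0) * lz k ω (z j)) = _
    simp [ite_mul]
  obtain ⟨Q, hQ⟩ : ∃ Q : Measure (ℕ → ℝ × ℝ), Q = PG.withDensity dn := ⟨_, rfl⟩
  have hQf : IsFiniteMeasure Q := by
    rw [hQ, hdn]
    exact isFiniteMeasure_withDensity_ofReal hdi.2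
  have hQac : Q ≪ PG := by
    rw [hQ]
    exact withDensity_absolutelyContinuous _ _
  obtain ⟨D, hD⟩ : ∃ D : (ℕ → ℝ × ℝ) → EuclideanSpace ℝ ι, D = fun ω => WithLp.toLp 2 (fun j => lz k ω (z j) - lz k ω (z i0)) := ⟨_, rfl⟩
  have hDm : AEMeasurable D PG := by
    rw [hD]
    exact (PiLp.continuous_toLp 2 (fun _ : ι => ℝ)).measurable.comp_aemeasurable
      (aemeasurable_pi_lambda _ fun j => (lz_meas k (hz1 j)).sub (lz_meas k (hz1 i0)))
  obtain ⟨D', hD'⟩ : ∃ D' : (ℕ → ℝ × ℝ) → EuclideanSpace ℝ ι, D' = fun ω => WithLp.toLp 2 (fun j => lz k ω (u j)) := ⟨_, rfl⟩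
  have hDm' : AEMeasurable D' PG := by rw [hD']; exact lz_vec_meas k u hu
  obtain ⟨C, hC⟩ : ∃ C : ENNReal, C = ENNReal.ofReal ((1 + z0.re) ^ (-(k ^ 2))) := ⟨_, rfl⟩
  have hCt : C ≠ ⊤ := by rw [hC]; exact ENNReal.ofReal_ne_top
  have hCr : C.toReal = (1 + z0.re) ^ (-(k ^ 2)) := by rw [hC, ENNReal.toReal_ofReal (by positivity)]
  have hfin2 : IsFiniteMeasure (C • PG.map D') := by
    refine ⟨?_⟩
    rw [Measure.smul_apply, smul_eq_mul]
    exact ENNReal.mul_lt_top (lt_top_iff_ne_top.mpr hCt) (measure_lt_top _ _)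
  have key : Q.map D = C • PG.map D' := by
    refine Measure.ext_of_charFun (funext fun t => ?_)
    obtain ⟨c, hc⟩ : ∃ c : ι → ℂ, c = fun j => Complex.I * (t j : ℂ) + if j = i0 then 2 * (k : ℂ) - Complex.I * ∑ l, (t l : ℂ) else 0 := ⟨_, rfl⟩
    have hcs : ∑ j, c j = 2 * (k : ℂ) := by
      rw [hc, Finset.sum_add_distrib, ← Finset.mul_sum, Finset.sum_ite_eq' Finset.univ i0, if_pos (Finset.mem_univ _)]
      ring
    have hcv : ∀ v : ι → ℝ, ∑ j, c j * (v j : ℂ) = Complex.I * (∑ j, (t j : ℂ) * ((v j : ℂ) - (v i0 : ℂ))) + 2 * k * (v i0 : ℂ) := by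
      intro v
      have e1 : ∑ j, c j * (v j : ℂ) = ∑ j, Complex.I * ((t j : ℂ) * (v j : ℂ)) + (2 * (k : ℂ) - Complex.I * ∑ l, (t l : ℂ)) * (v i0 : ℂ) := by
        rw [hc]
        simp only [add_mul, ite_mul, zero_mul]
        rw [Finset.sum_add_distrib, Finset.sum_ite_eq' Finset.univ i0, if_pos (Finset.mem_univ _)]
        simp only [mul_assoc]
      rw [e1, ← Finset.mul_sum]
      have e2 : ∑ j, (t j : ℂ) * ((v j : ℂ) - (v i0 : ℂ)) = ∑ j, (t j : ℂ) * (v j : ℂ) - (∑ j, (t j : ℂ)) * (v i0 : ℂ) := by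
        rw [Finset.sum_mul, ← Finset.sum_sub_distrib]
        exact Finset.sum_congr rfl fun j _ => by ring
      rw [e2]
      ring
    have hin : ∀ v : ι → ℝ, ((inner ℝ (WithLp.toLp 2 v : EuclideanSpace ℝ ι) t : ℝ) : ℂ) = ∑ j, (t j : ℂ) * (v j : ℂ) := by
      intro v
      rw [PiLp.inner_apply]
      push_cast
      refine Finset.sum_congr rfl fun j _ => ?_
      simp
    have hexp : ∀ v : ι → ℝ, Continuous fun x : EuclideanSpace ℝ ι => Complex.exp ((inner ℝ x t : ℝ) * Complex.I) := fun v => by fun_prop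
    have hcont : Continuous fun x : EuclideanSpace ℝ ι => Complex.exp ((inner ℝ x t : ℝ) * Complex.I) := by fun_prop
    rw [charFun_apply, charFun_apply, integral_smul_measure, integral_map (hDm.mono_ac hQac) hcont.aestronglyMeasurable,
      integral_map hDm' hcont.aestronglyMeasurable, hQ, integral_withDensity_eq_integral_toReal_smul₀ hdm
        (by rw [hdn]; exact Eventually.of_forall fun ω => ENNReal.ofReal_lt_top)]
    have e3 : ∀ ω, (dn ω).toReal • Complex.exp ((inner ℝ (D ω) t : ℝ) * Complex.I) = Complex.exp (∑ j, c j * ((lz k ω (z j) : ℝ) : ℂ)) := by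
      intro ω
      rw [hdn, hD]
      simp only
      rw [ENNReal.toReal_ofReal (Real.exp_pos _).le, Complex.real_smul, Complex.ofReal_exp, ← Complex.exp_add, hin, hcv]
      congr 1
      push_cast
      ring
    have e4 : ∀ ω, Complex.exp ((inner ℝ (D' ω) t : ℝ) * Complex.I) = Complex.exp (∑ j, c j * ((lz k ω (u j) : ℝ) : ℂ)) := by
      intro ω
      rw [hD']
      simp only
      rw [hin, hcv, hu0, lz_zero]
      congr 1
      push_cast
      simp only [sub_zero, mul_zero, add_zero]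
      ring
    simp_rw [e3, e4]
    rw [lz_deg k z hz1 c hcs, lz_deg k u hu c hcs, hCr]
    simp_rw [hsg]
    have e5 : ∑ j, ∑ l, c j * c l * ((Real.log (1 + z0.re) + sg (u j) (u l) : ℝ) : ℂ) =
        4 * (k : ℂ) ^ 2 * ((Real.log (1 + z0.re) : ℝ) : ℂ) + ∑ j, ∑ l, c j * c l * ((sg (u j) (u l) : ℝ) : ℂ) := by
      have e6 : ∑ j, ∑ l, c j * c l * ((Real.log (1 + z0.re) + sg (u j) (u l) : ℝ) : ℂ) =
          (∑ j, ∑ l, c j * c l) * ((Real.log (1 + z0.re) : ℝ) : ℂ) + ∑ j, ∑ l, c j * c l * ((sg (u j) (u l) : ℝ) : ℂ) := by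
        rw [Finset.sum_mul, ← Finset.sum_add_distrib]
        refine Finset.sum_congr rfl fun j _ => ?_
        rw [Finset.sum_mul, ← Finset.sum_add_distrib]
        refine Finset.sum_congr rfl fun l _ => ?_
        push_cast
        ring
      rw [e6, ← Finset.sum_mul_sum, hcs]
      ring
    rw [e5, Complex.real_smul]
    have e7 : (((1 + z0.re) ^ (-(k ^ 2)) : ℝ) : ℂ) = Complex.exp (-((k : ℂ) ^ 2) * ((Real.log (1 + z0.re) : ℝ) : ℂ)) := by
      rw [Real.rpow_def_of_pos hx]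
      push_cast
      congr 1
      ring
    rw [e7, ← Complex.exp_add]
    congr 1
    ring
  -- the functional
  have hFm : Measurable fun x : EuclideanSpace ℝ ι => F x.ofLp := hF.comp (PiLp.continuous_ofLp 2 (fun _ : ι => ℝ)).measurable
  have s1 : ∫⁻ ω, F (fun j => lz k ω (z j)) ∂PG = ∫⁻ ω, F (D ω).ofLp ∂Q := by
    rw [hQ]
    refine Eq.trans ?_ (lintegral_withDensity_eq_lintegral_mul₀ (g := fun ω => F (D ω).ofLp) hdm (hFm.comp_aemeasurable hDm)).symm
    refine lintegral_congr fun ω => ?_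
    show F (fun j => lz k ω (z j)) = dn ω * F (D ω).ofLp
    rw [hdn, hD]
    simp only
    rw [← hom]
    congr 1
    funext j
    ring
  have s2 : ∫⁻ ω, F (D ω).ofLp ∂Q = ∫⁻ x, F x.ofLp ∂(Q.map D) := (lintegral_map' hFm.aemeasurable (hDm.mono_ac hQac)).symm
  rw [← hC, show (fun ω => F (fun j => lz k ω (af z0 (u j)))) = fun ω => F (fun j => lz k ω (z j)) from by rw [hz], s1, s2, key, lintegral_smul_measure,
    lintegral_map' hFm.aemeasurable hDm', hD']
  rfl

end Pool.Agent.X111.FZ
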