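import Pool.Agent.X111.FZ.Blk2

set_option autoImplicit false
set_option linter.unusedSectionVars false

/-! The maxima of the field over the integers: the linear lower bound, `k > 1`. -/

namespace Pool.Agent.X111.FZ

open MeasureTheory ProbabilityTheory Filter Topology
open Pool.Agent.X111.FL

/-- the integers of absolute value at most `N` -/
abbrev Iz (N : ℕ) : Type := {j : ℤ // j ∈ Finset.Icc (-(N : ℤ)) N}

/-- the powers of the field at the integers -/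
noncomputable def vz (k : ℝ) (ω : ℕ → ℝ × ℝ) (j : ℤ) : ℝ := Real.exp (2 * k * lz k ω (Complex.I * ((j : ℝ) : ℂ)))

lemma vz_pos (k : ℝ) (ω : ℕ → ℝ × ℝ) (j : ℤ) : 0 < vz k ω j := Real.exp_pos _

lemma vz_zero (k : ℝ) (ω : ℕ → ℝ × ℝ) : vz k ω 0 = 1 := by
  unfold vz
  simp [lz_zero]

lemma vz_meas (k : ℝ) (j : ℤ) : AEMeasurable (fun ω => vz k ω j) PG :=
  Real.measurable_exp.comp_aemeasurable ((lz_meas k (il_re _)).const_mul _)

lemma sum_sym (a : ℤ → ℝ) (n : ℕ) : ∑ j ∈ Finset.Icc (-(n : ℤ)) n, a j = a 0 + (∑ l ∈ Finset.Ico 1 (n + 1), a l + ∑ l ∈ Finset.Ico 1 (n + 1), a (-(l : ℤ))) := by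
  induction n with
  | zero => simp
  | succ n ih =>
    have e1 : Finset.Icc (-((n + 1 : ℕ) : ℤ)) ((n + 1 : ℕ) : ℤ) = insert (-((n + 1 : ℕ) : ℤ)) (insert ((n + 1 : ℕ) : ℤ) (Finset.Icc (-(n : ℤ)) n)) := by
      ext j
      simp only [Finset.mem_Icc, Finset.mem_insert]
      push_cast
      omega
    have s1 := Finset.sum_Ico_succ_top (show 1 ≤ n + 1 by omega) (fun l : ℕ => a (l : ℤ))
    have s2 := Finset.sum_Ico_succ_top (show 1 ≤ n + 1 by omega) (fun l : ℕ => a (-(l : ℤ)))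
    rw [e1, Finset.sum_insert, Finset.sum_insert, ih, s1, s2]
    · ring
    · simp only [Finset.mem_Icc]
      push_cast
      omega
    · simp only [Finset.mem_insert, Finset.mem_Icc]
      push_cast
      omega

/-- the mean of the inverse of the sum -/
theorem inv_sum {k : ℝ} (hk : 1 < k) : ∃ c : ℝ, 0 < c ∧ ∀ N : ℕ,
    ENNReal.ofReal c ≤ ∫⁻ ω, ENNReal.ofReal (1 / ∑ j ∈ Finset.Icc (-(N : ℤ)) N, vz k ω j) ∂PG := by
  obtain ⟨q, C, hq0, hq1, hC0, hq⟩ := all_q hk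
  obtain ⟨M0, hM0⟩ : ∃ M0 : ℝ, M0 = (4 * C + 1) ^ (1 / q) := ⟨_, rfl⟩
  have hM0p : 0 < M0 := by rw [hM0]; positivity
  have hM0q : M0 ^ q = 4 * C + 1 := by
    rw [hM0, ← Real.rpow_mul (by positivity), one_div, inv_mul_cancel₀ hq0.ne', Real.rpow_one]
  refine ⟨1 / (2 * (1 + M0)), by positivity, fun N => ?_⟩
  obtain ⟨M, hM⟩ : ∃ M : ℕ, N + 1 ≤ 2 ^ M := ⟨N + 1, Nat.lt_two_pow_self.le⟩
  obtain ⟨P, hP⟩ : ∃ P : ℝ → (ℕ → ℝ × ℝ) → ℝ, P = fun e ω => ∑ l ∈ Finset.Ico 1 (2 ^ M), vv k e ω l := ⟨_, rfl⟩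
  have hP0 : ∀ e ω, 0 ≤ P e ω := fun e ω => by rw [hP]; exact Finset.sum_nonneg fun l _ => (vv_pos k e ω l).le
  have h1 := hq 1 (by norm_num) M
  have h2 := hq (-1) (by norm_num) M
  have e1 : (fun ω => (∑ l ∈ Finset.Ico 1 (2 ^ M), vv k 1 ω l) ^ q) = fun ω => P 1 ω ^ q := by rw [hP]
  have e2 : (fun ω => (∑ l ∈ Finset.Ico 1 (2 ^ M), vv k (-1) ω l) ^ q) = fun ω => P (-1) ω ^ q := by rw [hP]
  rw [e1] at h1
  rw [e2] at h2
  -- the sum
  have hsum : ∀ ω, ∑ j ∈ Finset.Icc (-(N : ℤ)) N, vz k ω j ≤ 1 + (P 1 ω + P (-1) ω) := by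
    intro ω
    rw [sum_sym, vz_zero, hP]
    refine add_le_add le_rfl (add_le_add ?_ ?_)
    · have h3 : ∑ l ∈ Finset.Ico 1 (N + 1), vz k ω (l : ℤ) = ∑ l ∈ Finset.Ico 1 (N + 1), vv k 1 ω l := by
        refine Finset.sum_congr rfl fun l _ => ?_
        unfold vz vv
        simp
      rw [h3]
      exact Finset.sum_le_sum_of_subset_of_nonneg (Finset.Ico_subset_Ico le_rfl hM) fun l _ _ => (vv_pos k 1 ω l).le
    · have h3 : ∑ l ∈ Finset.Ico 1 (N + 1), vz k ω (-(l : ℤ)) = ∑ l ∈ Finset.Ico 1 (N + 1), vv k (-1) ω l := by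
        refine Finset.sum_congr rfl fun l _ => ?_
        unfold vz vv
        simp
      rw [h3]
      exact Finset.sum_le_sum_of_subset_of_nonneg (Finset.Ico_subset_Ico le_rfl hM) fun l _ _ => (vv_pos k (-1) ω l).le
  have hpt : ∀ ω, 1 / (1 + M0) * (1 - (P 1 ω ^ q + P (-1) ω ^ q) / (4 * C + 1)) ≤ 1 / ∑ j ∈ Finset.Icc (-(N : ℤ)) N, vz k ω j := by
    intro ω
    have hSp : 0 < ∑ j ∈ Finset.Icc (-(N : ℤ)) N, vz k ω j := Finset.sum_pos (fun j _ => vz_pos k ω j) ⟨0, by simp⟩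
    have h4 : (P 1 ω + P (-1) ω) ^ q ≤ P 1 ω ^ q + P (-1) ω ^ q := Real.rpow_add_le_add_rpow (hP0 _ _) (hP0 _ _) hq0.le hq1
    rcases le_or_gt (P 1 ω + P (-1) ω) M0 with h | h
    · have h5 : 1 / (1 + M0) ≤ 1 / ∑ j ∈ Finset.Icc (-(N : ℤ)) N, vz k ω j := one_div_le_one_div_of_le hSp (by linarith [hsum ω])
      refine le_trans ?_ h5
      have h6 : 0 ≤ (P 1 ω ^ q + P (-1) ω ^ q) / (4 * C + 1) := by
        have := Real.rpow_nonneg (hP0 1 ω) q
        have := Real.rpow_nonneg (hP0 (-1) ω) q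
        positivity
      have h7 : 0 < 1 / (1 + M0) := by positivity
      nlinarith
    · have h5 : 4 * C + 1 ≤ (P 1 ω + P (-1) ω) ^ q := by
        rw [← hM0q]
        exact Real.rpow_le_rpow hM0p.le h.le hq0.le
      have h6 : 1 ≤ (P 1 ω ^ q + P (-1) ω ^ q) / (4 * C + 1) := by
        rw [le_div_iff₀ (by positivity)]
        linarith
      have h7 : 0 < 1 / (1 + M0) := by positivity
      have h8 : 0 ≤ 1 / ∑ j ∈ Finset.Icc (-(N : ℤ)) N, vz k ω j := by positivity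
      nlinarith
  have i1 : Integrable (fun ω => P 1 ω ^ q + P (-1) ω ^ q) PG := h1.1.add h2.1
  have i2 : Integrable (fun ω => (P 1 ω ^ q + P (-1) ω ^ q) / (4 * C + 1)) PG := i1.div_const _
  have hL : Integrable (fun ω => 1 / (1 + M0) * (1 - (P 1 ω ^ q + P (-1) ω ^ q) / (4 * C + 1))) PG :=
    ((integrable_const _).sub i2).const_mul _
  have hSm : AEMeasurable (fun ω => 1 / ∑ j ∈ Finset.Icc (-(N : ℤ)) N, vz k ω j) PG :=
    (Finset.aemeasurable_fun_sum _ fun j _ => vz_meas k j).const_div 1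
  have hR : Integrable (fun ω => 1 / ∑ j ∈ Finset.Icc (-(N : ℤ)) N, vz k ω j) PG := by
    refine (integrable_const (1:ℝ)).mono' hSm.aestronglyMeasurable (Eventually.of_forall fun ω => ?_)
    have hSp : 1 ≤ ∑ j ∈ Finset.Icc (-(N : ℤ)) N, vz k ω j := by
      have := Finset.single_le_sum (f := fun j => vz k ω j) (fun j _ => (vz_pos k ω j).le) (show (0:ℤ) ∈ Finset.Icc (-(N : ℤ)) N by simp)
      simpa [vz_zero] using this
    rw [Real.norm_of_nonneg (by positivity), div_le_one (by linarith)]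
    exact hSp
  rw [← ofReal_integral_eq_lintegral_ofReal hR (Eventually.of_forall fun ω => ?_)]
  · refine ENNReal.ofReal_le_ofReal ?_
    refine le_trans ?_ (integral_mono hL hR hpt)
    rw [integral_const_mul, integral_sub (integrable_const _) i2, integral_const, probReal_univ, one_smul, integral_div,
      integral_add h1.1 h2.1]
    have h5 : (∫ ω, P 1 ω ^ q ∂PG + ∫ ω, P (-1) ω ^ q ∂PG) / (4 * C + 1) ≤ 1 / 2 := by
      rw [div_le_iff₀ (by positivity)]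
      linarith [h1.2, h2.2]
    have h7 : 0 < 1 / (1 + M0) := by positivity
    have h8 : 1 / (2 * (1 + M0)) = 1 / (1 + M0) * (1 / 2) := by
      field_simp
    rw [h8]
    exact mul_le_mul_of_nonneg_left (by linarith) h7.le
  · show 0 ≤ 1 / ∑ j ∈ Finset.Icc (-(N : ℤ)) N, vz k ω j
    exact div_nonneg zero_le_one (Finset.sum_nonneg fun j _ => (vz_pos k ω j).le)

/-- the translation of the ratio functional -/
lemma shift_ratio (k : ℝ) (N : ℕ) (m : ℤ) :
    ∫⁻ ω, ENNReal.ofReal (vz k ω m ^ 2 / ∑ j ∈ Finset.Icc (-(N : ℤ)) N, vz k ω (m + j)) ∂PG =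
    ∫⁻ ω, ENNReal.ofReal (1 / ∑ j ∈ Finset.Icc (-(N : ℤ)) N, vz k ω j) ∂PG := by
  classical
  obtain ⟨F, hF⟩ : ∃ F : (Iz N → ℝ) → ENNReal, F = fun v => ENNReal.ofReal (Real.exp (2 * k * v ⟨0, by simp⟩) ^ 2 / ∑ j, Real.exp (2 * k * v j)) := ⟨_, rfl⟩
  have hFm : Measurable F := by
    rw [hF]
    refine ENNReal.measurable_ofReal.comp ?_
    refine Measurable.div ?_ ?_
    · exact (Real.measurable_exp.comp ((measurable_pi_apply _).const_mul _)).pow_const 2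
    · exact Finset.measurable_fun_sum _ fun j _ => Real.measurable_exp.comp ((measurable_pi_apply j).const_mul _)
  have hh : ∀ (c : ℝ) (v : Iz N → ℝ), F (fun j => v j + c) = ENNReal.ofReal (Real.exp (2 * k * c)) * F v := by
    intro c v
    rw [hF]
    simp only
    rw [← ENNReal.ofReal_mul (Real.exp_pos _).le]
    congr 1
    have e1 : ∀ x : ℝ, Real.exp (2 * k * (x + c)) = Real.exp (2 * k * c) * Real.exp (2 * k * x) := fun x => by
      rw [← Real.exp_add]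
      congr 1
      ring
    simp_rw [e1]
    rw [← Finset.mul_sum]
    have h1 : 0 < ∑ j : Iz N, Real.exp (2 * k * v j) := Finset.sum_pos (fun j _ => Real.exp_pos _) ⟨⟨0, by simp⟩, Finset.mem_univ _⟩
    have h2 := Real.exp_pos (2 * k * c)
    field_simp
  have h1 := inv k (ι := Iz N) ⟨0, by simp⟩ (fun j => Complex.I * (((j : ℤ) : ℝ) : ℂ)) (fun j => il_re _) (by simp) (z0 := Complex.I * ((m : ℝ) : ℂ))
    (il_re _) F hFm hh
  have e0 : (Complex.I * ((m : ℝ) : ℂ)).re = 0 := by simp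
  rw [e0, add_zero, Real.one_rpow, ENNReal.ofReal_one, one_mul] at h1
  have e2 : ∀ j : ℤ, af (Complex.I * ((m : ℝ) : ℂ)) (Complex.I * ((j : ℝ) : ℂ)) = Complex.I * (((m + j : ℤ) : ℝ) : ℂ) := by
    intro j
    unfold af
    rw [e0]
    push_cast
    ring
  have e3 : ∀ ω, F (fun j : Iz N => lz k ω (af (Complex.I * ((m : ℝ) : ℂ)) (Complex.I * (((j : ℤ) : ℝ) : ℂ)))) =
      ENNReal.ofReal (vz k ω m ^ 2 / ∑ j ∈ Finset.Icc (-(N : ℤ)) N, vz k ω (m + j)) := by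
    intro ω
    rw [hF]
    simp only [e2]
    rw [← Finset.sum_coe_sort (Finset.Icc (-(N : ℤ)) N) fun j => vz k ω (m + j)]
    congr 2
    · unfold vz
      simp
  have e4 : ∀ ω, F (fun j : Iz N => lz k ω (Complex.I * (((j : ℤ) : ℝ) : ℂ))) = ENNReal.ofReal (1 / ∑ j ∈ Finset.Icc (-(N : ℤ)) N, vz k ω j) := by
    intro ω
    rw [hF]
    simp only
    rw [← Finset.sum_coe_sort (Finset.Icc (-(N : ℤ)) N) fun j => vz k ω j]
    congr 2
    simp [lz_zero]
  simp_rw [e3, e4] at h1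
  exact h1

/-- **The linear lower bound for the maxima.** -/
theorem low {k : ℝ} (hk : 1 < k) : ∃ c : ℝ, 0 < c ∧ ∀ N : ℕ,
    ENNReal.ofReal (c * (2 * N + 1)) ≤ ∫⁻ ω, ⨆ j : Iz N, ENNReal.ofReal (vz k ω j) ∂PG := by
  obtain ⟨c, hc0, hc⟩ := inv_sum hk
  refine ⟨c, hc0, fun N => ?_⟩
  have h1 : ∀ ω, ∑ m ∈ Finset.Icc (-(N : ℤ)) N, ENNReal.ofReal (vz k ω m ^ 2 / ∑ j ∈ Finset.Icc (-((2 * N : ℕ) : ℤ)) ((2 * N : ℕ) : ℤ), vz k ω (m + j)) ≤
      ⨆ j : Iz N, ENNReal.ofReal (vz k ω j) := by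
    intro ω
    obtain ⟨S, hS⟩ : ∃ S : ℝ, S = ∑ l ∈ Finset.Icc (-(N : ℤ)) N, vz k ω l := ⟨_, rfl⟩
    have hSp : 0 < S := by rw [hS]; exact Finset.sum_pos (fun j _ => vz_pos k ω j) ⟨0, by simp⟩
    obtain ⟨j0, hj0, hmax⟩ := Finset.exists_max_image (Finset.Icc (-(N : ℤ)) N) (fun j => vz k ω j) ⟨0, by simp⟩
    rw [← ENNReal.ofReal_sum_of_nonneg fun m _ => div_nonneg (sq_nonneg _) (Finset.sum_nonneg fun j _ => (vz_pos k ω _).le)]
    refine le_trans ?_ (le_iSup (fun j : Iz N => ENNReal.ofReal (vz k ω j)) ⟨j0, hj0⟩)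
    refine ENNReal.ofReal_le_ofReal ?_
    have h2 : ∀ m ∈ Finset.Icc (-(N : ℤ)) N, vz k ω m ^ 2 / ∑ j ∈ Finset.Icc (-((2 * N : ℕ) : ℤ)) ((2 * N : ℕ) : ℤ), vz k ω (m + j) ≤ vz k ω m * vz k ω j0 / S := by
      intro m hm
      have h3 : S ≤ ∑ j ∈ Finset.Icc (-((2 * N : ℕ) : ℤ)) ((2 * N : ℕ) : ℤ), vz k ω (m + j) := by
        have h4 : ∑ j ∈ Finset.Icc (-((2 * N : ℕ) : ℤ)) ((2 * N : ℕ) : ℤ), vz k ω (m + j) =
            ∑ l ∈ (Finset.Icc (-((2 * N : ℕ) : ℤ)) ((2 * N : ℕ) : ℤ)).image (fun j => m + j), vz k ω l := by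
          rw [Finset.sum_image]
          intro x _ y _ hxy
          simpa using hxy
        rw [hS, h4]
        refine Finset.sum_le_sum_of_subset_of_nonneg ?_ fun l _ _ => (vz_pos k ω l).le
        intro l hl
        rw [Finset.mem_image]
        rw [Finset.mem_Icc] at hl hm
        refine ⟨l - m, ?_, by ring⟩
        rw [Finset.mem_Icc]
        push_cast
        omega
      have h5 := hmax m hm
      have h6 := vz_pos k ω m
      calc vz k ω m ^ 2 / ∑ j ∈ Finset.Icc (-((2 * N : ℕ) : ℤ)) ((2 * N : ℕ) : ℤ), vz k ω (m + j) ≤ vz k ω m ^ 2 / S :=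
            div_le_div_of_nonneg_left (sq_nonneg _) hSp h3
        _ ≤ vz k ω m * vz k ω j0 / S := by
            refine div_le_div_of_nonneg_right ?_ hSp.le
            rw [sq]
            exact mul_le_mul_of_nonneg_left h5 h6.le
    refine (Finset.sum_le_sum h2).trans (le_of_eq ?_)
    rw [← Finset.sum_div, ← Finset.sum_mul, ← hS]
    field_simp
  refine le_trans ?_ (lintegral_mono h1)
  rw [lintegral_finsetSum']
  · simp_rw [shift_ratio]
    rw [Finset.sum_const, nsmul_eq_mul, Int.card_Icc]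
    have e1 : (((N : ℤ) + 1 - (-(N : ℤ))).toNat) = 2 * N + 1 := by omega
    rw [e1, mul_comm c, ENNReal.ofReal_mul (by positivity)]
    refine mul_le_mul' (le_of_eq ?_) (hc (2 * N))
    rw [← ENNReal.ofReal_natCast]
    push_cast
    rfl
  · intro m _
    refine ENNReal.measurable_ofReal.comp_aemeasurable ?_
    exact ((vz_meas k m).pow_const 2).div (Finset.aemeasurable_fun_sum _ fun j _ => vz_meas k _)

end Pool.Agent.X111.FZ
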