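import Pool.Agent.X111.FZ.Gen

set_option autoImplicit false
set_option linter.unusedSectionVars false

/-! The logarithm of the modulus of the limit field: exponential moments of total degree `2k`, and the invariance of the field. -/

namespace Pool.Agent.X111.FZ

open MeasureTheory ProbabilityTheory Filter Topology
open Pool.Agent.X111.FL

/-- the logarithm of the modulus of the field -/
noncomputable def lz (k : ℝ) (ω : ℕ → ℝ × ℝ) (z : ℂ) : ℝ := -k * Real.log ‖1 + z / 2‖ + (gf ω (z / (z + 2))).re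

/-- the covariance -/
noncomputable def sg (z u : ℂ) : ℝ := Real.log ‖1 + (z + (starRingEnd ℂ) u) / 2‖

lemma half_pos {z : ℂ} (hz : -1 < z.re) : 0 < ‖1 + z / 2‖ := by
  rw [norm_pos_iff]
  intro h
  have := congrArg Complex.re h
  simp at this
  linarith

lemma half2_pos {z u : ℂ} (hz : -1 < z.re) (hu : -1 < u.re) : 0 < ‖1 + (z + (starRingEnd ℂ) u) / 2‖ := by
  rw [norm_pos_iff]
  intro h
  have := congrArg Complex.re h
  simp at this
  linarith

lemma wd_form {z u : ℂ} (hz : -1 < z.re) (hu : -1 < u.re) :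
    1 - z / (z + 2) * (starRingEnd ℂ) (u / (u + 2)) = (1 + (z + (starRingEnd ℂ) u) / 2) / ((1 + z / 2) * (starRingEnd ℂ) (1 + u / 2)) := by
  have h1 : z + 2 ≠ 0 := by
    intro h
    have := congrArg Complex.re h
    simp at this
    linarith
  have h2 : (starRingEnd ℂ) u + 2 ≠ 0 := by
    intro h
    have := congrArg Complex.re h
    simp at this
    linarith
  simp only [map_div₀, map_add, map_ofNat, map_one]
  obtain ⟨v, hv⟩ : ∃ v : ℂ, v = (starRingEnd ℂ) u := ⟨_, rfl⟩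
  rw [← hv] at h2 ⊢
  have e1 : 1 + z / 2 = (z + 2) / 2 := by ring
  have e2 : 1 + v / 2 = (v + 2) / 2 := by ring
  rw [e1, e2]
  field_simp
  ring

lemma wd_cov {z u : ℂ} (hz : -1 < z.re) (hu : -1 < u.re) :
    -Real.log ‖1 - z / (z + 2) * (starRingEnd ℂ) (u / (u + 2))‖ = -sg z u + Real.log ‖1 + z / 2‖ + Real.log ‖1 + u / 2‖ := by
  rw [wd_form hz hu, norm_div, norm_mul, RCLike.norm_conj, Real.log_div (half2_pos hz hu).ne' (mul_pos (half_pos hz) (half_pos hu)).ne',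
    Real.log_mul (half_pos hz).ne' (half_pos hu).ne']
  unfold sg
  ring

lemma exp_lz (k : ℝ) (ω : ℕ → ℝ × ℝ) {z : ℂ} (hz : -1 < z.re) : ‖fi k ω z‖ = Real.exp (lz k ω z) := by
  unfold fi lz
  have e1 : (-(k : ℂ)) = ((-k : ℝ) : ℂ) := by push_cast; rfl
  rw [norm_mul, e1, Complex.norm_cpow_real, Complex.norm_exp, Real.exp_add, Real.rpow_def_of_pos (half_pos hz)]
  congr 2
  ring

lemma lz_zero (k : ℝ) (ω : ℕ → ℝ × ℝ) : lz k ω 0 = 0 := by
  unfold lz gf
  simp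

variable {ι : Type} [Fintype ι]

/-- exponential moments, general degree -/
theorem lz_exp (k : ℝ) (z : ι → ℂ) (hz : ∀ j, -1 < (z j).re) (c : ι → ℂ) :
    ∫ ω, Complex.exp (∑ j, c j * ((lz k ω (z j) : ℝ) : ℂ)) ∂PG =
    Complex.exp (-(1 / 4) * ∑ j, ∑ l, c j * c l * ((sg (z j) (z l) : ℝ) : ℂ) +
      (1 / 2 * (∑ j, c j) - k) * ∑ j, c j * ((Real.log ‖1 + z j / 2‖ : ℝ) : ℂ)) := by
  have h1 := rf_exp (fun j => z j / (z j + 2)) (fun j => wd_norm (hz j)) c
  have e1 : ∀ ω, Complex.exp (∑ j, c j * ((lz k ω (z j) : ℝ) : ℂ)) = Complex.exp (-k * ∑ j, c j * ((Real.log ‖1 + z j / 2‖ : ℝ) : ℂ)) *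
      Complex.exp (∑ j, c j * ((gf ω (z j / (z j + 2))).re : ℂ)) := by
    intro ω
    rw [← Complex.exp_add]
    congr 1
    rw [Finset.mul_sum, ← Finset.sum_add_distrib]
    refine Finset.sum_congr rfl fun j _ => ?_
    unfold lz
    push_cast
    ring
  simp_rw [e1]
  rw [integral_const_mul, h1, ← Complex.exp_add]
  congr 1
  have e2 : ∑ j, ∑ l, c j * c l * ((-Real.log ‖1 - z j / (z j + 2) * (starRingEnd ℂ) (z l / (z l + 2))‖ : ℝ) : ℂ) =
      -(∑ j, ∑ l, c j * c l * ((sg (z j) (z l) : ℝ) : ℂ)) + 2 * (∑ j, c j) * ∑ j, c j * ((Real.log ‖1 + z j / 2‖ : ℝ) : ℂ) := by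
    have e3 : ∑ j, ∑ l, c j * c l * ((-Real.log ‖1 - z j / (z j + 2) * (starRingEnd ℂ) (z l / (z l + 2))‖ : ℝ) : ℂ) =
        -(∑ j, ∑ l, c j * c l * ((sg (z j) (z l) : ℝ) : ℂ)) + (∑ j, ∑ l, c j * c l * ((Real.log ‖1 + z j / 2‖ : ℝ) : ℂ) +
          ∑ j, ∑ l, c j * c l * ((Real.log ‖1 + z l / 2‖ : ℝ) : ℂ)) := by
      rw [← Finset.sum_add_distrib, ← Finset.sum_neg_distrib, ← Finset.sum_add_distrib]
      refine Finset.sum_congr rfl fun j _ => ?_
      rw [← Finset.sum_add_distrib, ← Finset.sum_neg_distrib, ← Finset.sum_add_distrib]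
      refine Finset.sum_congr rfl fun l _ => ?_
      rw [wd_cov (hz j) (hz l)]
      push_cast
      ring
    rw [e3]
    have e4 : ∑ j, ∑ l, c j * c l * ((Real.log ‖1 + z j / 2‖ : ℝ) : ℂ) = (∑ j, c j) * ∑ j, c j * ((Real.log ‖1 + z j / 2‖ : ℝ) : ℂ) := by
      rw [mul_comm, Finset.sum_mul_sum]
      refine Finset.sum_congr rfl fun j _ => Finset.sum_congr rfl fun l _ => ?_
      ring
    have e5 : ∑ j, ∑ l, c j * c l * ((Real.log ‖1 + z l / 2‖ : ℝ) : ℂ) = (∑ j, c j) * ∑ j, c j * ((Real.log ‖1 + z j / 2‖ : ℝ) : ℂ) := by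
      rw [Finset.sum_mul_sum]
      refine Finset.sum_congr rfl fun j _ => Finset.sum_congr rfl fun l _ => ?_
      ring
    rw [e4, e5]
    ring
  rw [e2]
  ring

/-- exponential moments of total degree `2k` -/
theorem lz_deg (k : ℝ) (z : ι → ℂ) (hz : ∀ j, -1 < (z j).re) (c : ι → ℂ) (hc : ∑ j, c j = 2 * k) :
    ∫ ω, Complex.exp (∑ j, c j * ((lz k ω (z j) : ℝ) : ℂ)) ∂PG =
    Complex.exp (-(1 / 4) * ∑ j, ∑ l, c j * c l * ((sg (z j) (z l) : ℝ) : ℂ)) := by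
  rw [lz_exp k z hz c, hc]
  congr 1
  ring

lemma lz_meas (k : ℝ) {z : ℂ} (hz : -1 < z.re) : AEMeasurable (fun ω => lz k ω z) PG :=
  (Complex.continuous_re.comp_aestronglyMeasurable (gf_meas (z / (z + 2)) (wd_norm hz))).aemeasurable.const_add _

/-- real exponential moments -/
theorem lz_int (k : ℝ) (z : ι → ℂ) (hz : ∀ j, -1 < (z j).re) (c : ι → ℝ) :
    Integrable (fun ω => Real.exp (∑ j, c j * lz k ω (z j))) PG := by
  obtain ⟨r, hr0, hr1, hwr⟩ := ex_rad' (fun j => z j / (z j + 2)) fun j => wd_norm (hz j)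
  obtain ⟨K, hK⟩ : ∃ K : ℝ, K = ∑ j, |c j| * |k * Real.log ‖1 + z j / 2‖| := ⟨_, rfl⟩
  refine ((mj_exp hr0 hr1 (∑ j, |c j|)).const_mul (Real.exp K)).mono' ?_ ?_
  · refine (Real.continuous_exp.comp_aestronglyMeasurable ?_)
    exact (Finset.univ.aemeasurable_fun_sum fun j _ => (lz_meas k (hz j)).const_mul (c j)).aestronglyMeasurable
  · filter_upwards [Gd_ae] with ω hω
    rw [Real.norm_of_nonneg (Real.exp_pos _).le, ← Real.exp_add]
    refine Real.exp_le_exp.mpr ?_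
    rw [hK, Finset.sum_mul, ← Finset.sum_add_distrib]
    refine Finset.sum_le_sum fun j _ => ?_
    have h1 := (Complex.abs_re_le_norm _).trans (gf_norm hω hr0 hr1 (hwr j))
    have h2 : |lz k ω (z j)| ≤ |k * Real.log ‖1 + z j / 2‖| + mj r ω := by
      unfold lz
      refine (abs_add_le _ _).trans (add_le_add ?_ h1)
      rw [neg_mul, abs_neg]
    calc c j * lz k ω (z j) ≤ |c j| * |lz k ω (z j)| := by rw [← abs_mul]; exact le_abs_self _
      _ ≤ |c j| * (|k * Real.log ‖1 + z j / 2‖| + mj r ω) := mul_le_mul_of_nonneg_left h2 (abs_nonneg _)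
      _ = _ := by ring

/-- real exponential moments, the value -/
theorem lz_real (k : ℝ) (z : ι → ℂ) (hz : ∀ j, -1 < (z j).re) (c : ι → ℝ) :
    ∫ ω, Real.exp (∑ j, c j * lz k ω (z j)) ∂PG =
    Real.exp (-(1 / 4) * ∑ j, ∑ l, c j * c l * sg (z j) (z l) + (1 / 2 * (∑ j, c j) - k) * ∑ j, c j * Real.log ‖1 + z j / 2‖) := by
  have h1 := lz_exp k z hz (fun j => (c j : ℂ))
  have e1 : ∀ ω, Complex.exp (∑ j, (c j : ℂ) * ((lz k ω (z j) : ℝ) : ℂ)) = ((Real.exp (∑ j, c j * lz k ω (z j)) : ℝ) : ℂ) := by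
    intro ω
    push_cast
    rfl
  simp_rw [e1] at h1
  rw [integral_complex_ofReal] at h1
  have h2 : ((∫ ω, Real.exp (∑ j, c j * lz k ω (z j)) ∂PG : ℝ) : ℂ) =
      ((Real.exp (-(1 / 4) * ∑ j, ∑ l, c j * c l * sg (z j) (z l) + (1 / 2 * (∑ j, c j) - k) * ∑ j, c j * Real.log ‖1 + z j / 2‖) : ℝ) : ℂ) := by
    rw [h1]
    push_cast
    rfl
  exact_mod_cast h2

end Pool.Agent.X111.FZ
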