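import Pool.Agent.X111.FZ.Conv2
import Pool.Agent.X111.FL.Max

set_option autoImplicit false
set_option linter.unusedSectionVars false

/-! The maxima of the field over a segment: the upper bounds. -/

namespace Pool.Agent.X111.FZ

open MeasureTheory ProbabilityTheory Filter Topology
open Pool.Agent.X111.FL
open Pool.Agent.X111.JD (ga ga_exp nn nn_cont nn_le nn_int)

lemma D2_re {H : ℝ} {z : ℂ} (hz : z ∈ D2 H) : -1 < z.re := by
  have := re_D2 hz
  linarith

/-- the supremum bound for the field -/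
lemma fsup (k : ℝ) {p : ℝ} (hp : 0 < p) {ω : ℕ → ℝ × ℝ} (hω : Gd ω) (H : ℝ) {w : ℂ} (hw : w ∈ D1 H) :
    ‖fi k ω w‖ ^ p ≤ 16 / Real.pi * ∫ z in D2 H, ‖fi k ω z‖ ^ p := by
  have h1 := Pool.Agent.H402R2.SubMean.rpow_mul_le_lintegral (g := fi k ω) (w := w) (ρ := 1 / 4) (p := p) (by norm_num) hp
    ((fi_diff k hω).mono (ball_D2 hw))
  have h2 : ∫⁻ z in Metric.ball w (1 / 4), ‖fi k ω z‖ₑ ^ p ≤ ∫⁻ z in D2 H, ‖fi k ω z‖ₑ ^ p := lintegral_mono_set (ball_D2 hw)
  have hi : IntegrableOn (fun z => ‖fi k ω z‖ ^ p) (D2 H) := by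
    refine ContinuousOn.integrableOn_compact (D2_compact H) ?_
    exact (fi_diff k hω).continuousOn.norm.rpow_const fun z _ => Or.inr hp.le
  have h3 : ∫⁻ z in D2 H, ‖fi k ω z‖ₑ ^ p = ENNReal.ofReal (∫ z in D2 H, ‖fi k ω z‖ ^ p) := by
    rw [ofReal_integral_eq_lintegral_ofReal hi (Eventually.of_forall fun z => Real.rpow_nonneg (norm_nonneg _) _)]
    refine lintegral_congr fun z => ?_
    rw [← ofReal_norm, ENNReal.ofReal_rpow_of_nonneg (norm_nonneg _) hp.le]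
  rw [h3] at h2
  have h0 : 0 ≤ ∫ z in D2 H, ‖fi k ω z‖ ^ p := integral_nonneg fun z => Real.rpow_nonneg (norm_nonneg _) _
  have h4 := (ENNReal.ofReal_le_ofReal_iff h0).mp (h1.trans h2)
  have hpi := Real.pi_pos
  rw [div_mul_eq_mul_div, le_div_iff₀ hpi]
  nlinarith

/-- joint measurability -/
lemma lz_joint (k H : ℝ) : AEMeasurable (fun x : (ℕ → ℝ × ℝ) × ℂ => lz k x.1 x.2) (PG.prod (volume.restrict (D2 H))) := by
  have h1 : AEMeasurable (fun x : (ℕ → ℝ × ℝ) × ℂ => gf x.1 (x.2 / (x.2 + 2))) (PG.prod (volume.restrict (D2 H))) := by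
    refine aemeasurable_of_tendsto_metrizable_ae atTop (f := fun N (x : (ℕ → ℝ × ℝ) × ℂ) => ∑ n ∈ Finset.range N,
      nn (x.1 n) * ((x.2 / (x.2 + 2)) ^ (n + 1) / (Real.sqrt (n + 1) : ℂ))) (fun N => ?_) ?_
    · refine (Finset.measurable_fun_sum _ fun n _ => ?_).aemeasurable
      refine (nn_cont.measurable.comp ((measurable_pi_apply n).comp measurable_fst)).mul ?_
      exact ((measurable_snd.div (measurable_snd.add_const _)).pow_const _).div_const _
    · have g1 : ∀ᵐ x : (ℕ → ℝ × ℝ) × ℂ ∂(PG.prod (volume.restrict (D2 H))), Gd x.1 := Measure.quasiMeasurePreserving_fst.ae Gd_ae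
      have g2 : ∀ᵐ x : (ℕ → ℝ × ℝ) × ℂ ∂(PG.prod (volume.restrict (D2 H))), x.2 ∈ D2 H :=
        Measure.quasiMeasurePreserving_snd.ae (ae_restrict_mem (D2_compact H).measurableSet)
      filter_upwards [g1, g2] with x h1 h2
      exact (gf_summable h1 (wd_norm (D2_re h2))).hasSum.tendsto_sum_nat
  have h2 : Measurable fun x : (ℕ → ℝ × ℝ) × ℂ => -k * Real.log ‖1 + x.2 / 2‖ :=
    (Real.measurable_log.comp ((measurable_snd.div_const _).const_add _).norm).const_mul _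
  exact h2.aemeasurable.add (Complex.measurable_re.comp_aemeasurable h1)

lemma sg_self {z : ℂ} (hz : -1 < z.re) : sg z z = Real.log (1 + z.re) := by
  unfold sg
  have e1 : (1 + (z + (starRingEnd ℂ) z) / 2 : ℂ) = ((1 + z.re : ℝ) : ℂ) := by
    rw [Complex.add_conj]
    push_cast
    ring
  rw [e1, Complex.norm_real, Real.norm_of_nonneg (by linarith)]

lemma vol_D2 {H : ℝ} (hH : 0 ≤ H) : volume (D2 H) ≤ ENNReal.ofReal (6 * (1 + H)) := by
  have h1 := Complex.volume_preserving_equiv_real_prod.measure_preimage (s := Set.Icc (-(3/4 : ℝ)) (3/4) ×ˢ Set.Icc (-(H + 2)) (H + 2))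
    (measurableSet_Icc.prod measurableSet_Icc).nullMeasurableSet
  have h2 : Complex.measurableEquivRealProd ⁻¹' (Set.Icc (-(3/4 : ℝ)) (3/4) ×ˢ Set.Icc (-(H + 2)) (H + 2)) = D2 H := rfl
  rw [h2, Measure.volume_eq_prod, Measure.prod_prod, Real.volume_Icc, Real.volume_Icc, ← ENNReal.ofReal_mul (by norm_num)] at h1
  rw [h1]
  refine ENNReal.ofReal_le_ofReal ?_
  linarith

/-- the mean of the area integral, order `k` -/
lemma area_one {k H : ℝ} (hk : 0 < k) (hH : 0 ≤ H) :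
    ∫⁻ ω, (∫⁻ z in D2 H, ENNReal.ofReal (Real.exp (2 * k * lz k ω z))) ∂PG ≤ ENNReal.ofReal (4 ^ (k ^ 2) * (6 * (1 + H))) := by
  have hm : AEMeasurable (Function.uncurry fun (ω : ℕ → ℝ × ℝ) (z : ℂ) => ENNReal.ofReal (Real.exp (2 * k * lz k ω z))) (PG.prod (volume.restrict (D2 H))) :=
    ENNReal.measurable_ofReal.comp_aemeasurable (Real.measurable_exp.comp_aemeasurable ((lz_joint k H).const_mul _))
  rw [lintegral_lintegral_swap hm]
  have h1 : ∫⁻ z in D2 H, ∫⁻ ω, ENNReal.ofReal (Real.exp (2 * k * lz k ω z)) ∂PG ≤ ∫⁻ _z in D2 H, ENNReal.ofReal (4 ^ (k ^ 2)) := by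
    refine setLIntegral_mono' (D2_compact H).measurableSet fun z hz => ?_
    rw [← ofReal_integral_eq_lintegral_ofReal (lz_one_int k (2 * k) (D2_re hz)) (Eventually.of_forall fun ω => (Real.exp_pos _).le), lz_one k (2 * k) (D2_re hz)]
    refine ENNReal.ofReal_le_ofReal ?_
    rw [sg_self (D2_re hz), Real.rpow_def_of_pos (by norm_num)]
    refine Real.exp_le_exp.mpr ?_
    have h2 : -Real.log 4 ≤ Real.log (1 + z.re) := by
      rw [← Real.log_inv]
      exact Real.log_le_log (by norm_num) (by linarith [re_D2 hz])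
    have h3 : 0 ≤ k ^ 2 := by positivity
    nlinarith [mul_le_mul_of_nonneg_left h2 h3]
  refine h1.trans ?_
  rw [setLIntegral_const, ENNReal.ofReal_mul (by positivity)]
  exact mul_le_mul_right (vol_D2 hH) _

/-- the mean of the weighted area integral, `k ≤ 1` -/
lemma area_two {k H : ℝ} (hk : 0 < k) (hk1 : k ≤ 1) (hH : 0 ≤ H) :
    ∫⁻ ω, (∫⁻ z in D2 H, ENNReal.ofReal (Real.exp ((2 * k - 2) * lz k ω (H : ℂ) + 2 * lz k ω z))) ∂PG ≤
      ENNReal.ofReal (36 * (1 + H) ^ (1 - k ^ 2) * (6 * (1 + H))) := by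
  have hm : AEMeasurable (Function.uncurry fun (ω : ℕ → ℝ × ℝ) (z : ℂ) => ENNReal.ofReal (Real.exp ((2 * k - 2) * lz k ω (H : ℂ) + 2 * lz k ω z)))
      (PG.prod (volume.restrict (D2 H))) := by
    have g1 : AEMeasurable (fun x : (ℕ → ℝ × ℝ) × ℂ => lz k x.1 (H : ℂ)) (PG.prod (volume.restrict (D2 H))) :=
      (lz_meas k (re_re hH)).comp_quasiMeasurePreserving Measure.quasiMeasurePreserving_fst
    exact ENNReal.measurable_ofReal.comp_aemeasurable (Real.measurable_exp.comp_aemeasurable ((g1.const_mul _).add ((lz_joint k H).const_mul _)))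
  rw [lintegral_lintegral_swap hm]
  have hH1 : 0 < 1 + H := by linarith
  have h1 : ∫⁻ z in D2 H, ∫⁻ ω, ENNReal.ofReal (Real.exp ((2 * k - 2) * lz k ω (H : ℂ) + 2 * lz k ω z)) ∂PG ≤
      ∫⁻ _z in D2 H, ENNReal.ofReal (36 * (1 + H) ^ (1 - k ^ 2)) := by
    refine setLIntegral_mono' (D2_compact H).measurableSet fun z hz => ?_
    rw [← ofReal_integral_eq_lintegral_ofReal (lz_two_int k (2 * k - 2) 2 (re_re hH) (D2_re hz)) (Eventually.of_forall fun ω => (Real.exp_pos _).le),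
      lz_two k (2 * k - 2) 2 (re_re hH) (D2_re hz)]
    refine ENNReal.ofReal_le_ofReal ?_
    rw [sg_self (D2_re hz), sg_real hH]
    have h2 : -Real.log 4 ≤ Real.log (1 + z.re) := by
      rw [← Real.log_inv]
      exact Real.log_le_log (by norm_num) (by linarith [re_D2 hz])
    have h3 : sg (H : ℂ) z ≤ Real.log 3 + Real.log (1 + H) := by
      rw [← Real.log_mul (by norm_num) hH1.ne']
      unfold sg
      refine Real.log_le_log (half2_pos (re_re hH) (D2_re hz)) ?_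
      have h4 := mem_D2.mp hz
      have h5 : ‖z‖ ≤ |z.re| + |z.im| := Complex.norm_le_abs_re_add_abs_im z
      refine (norm_add_le _ _).trans ?_
      rw [norm_one, norm_div, Complex.norm_two]
      have h6 : ‖((H : ℝ) : ℂ) + (starRingEnd ℂ) z‖ ≤ H + ‖z‖ := by
        refine (norm_add_le _ _).trans ?_
        rw [RCLike.norm_conj, Complex.norm_real, Real.norm_of_nonneg hH]
      linarith [h4.1, h4.2]
    have e1 : (36:ℝ) * (1 + H) ^ (1 - k ^ 2) = Real.exp (Real.log 4 + 2 * Real.log 3 + (1 - k ^ 2) * Real.log (1 + H)) := by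
      rw [Real.exp_add, Real.exp_add, Real.exp_log (by norm_num), two_mul, Real.exp_add, Real.exp_log (by norm_num), Real.rpow_def_of_pos hH1]
      rw [mul_comm (Real.log (1 + H))]
      norm_num
    rw [e1]
    refine Real.exp_le_exp.mpr ?_
    have h7 : 0 ≤ 2 * (1 - k) := by linarith
    have h8 := mul_le_mul_of_nonneg_left h3 h7
    have h9 : 0 ≤ Real.log 3 := Real.log_nonneg (by norm_num)
    nlinarith [mul_nonneg hk.le h9]
  refine h1.trans ?_
  rw [setLIntegral_const, ENNReal.ofReal_mul (by positivity : (0:ℝ) ≤ 36 * (1 + H) ^ (1 - k ^ 2))]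
  exact mul_le_mul_right (vol_D2 hH) _

/-- the mean maximum over the segment -/
noncomputable def LM (k H : ℝ) : ℝ := ∫ ω, ‖pth H (fi k ω)‖ ^ (2 * k) ∂PG

lemma norm_hom {k H : ℝ} (hk : 0 < k) : Continuous (fun u : C(Set.Icc (-H) H, ℂ) => ‖u‖ ^ (2 * k)) ∧
    ∀ (c : ℂ) (u : C(Set.Icc (-H) H, ℂ)), ‖c • u‖ ^ (2 * k) = ‖c‖ ^ (2 * k) * ‖u‖ ^ (2 * k) :=
  ⟨continuous_norm.rpow_const fun _ => Or.inr (by positivity), fun c u => by rw [norm_smul, Real.mul_rpow (norm_nonneg _) (norm_nonneg _)]⟩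

lemma LM_int {k H : ℝ} (hk : 0 < k) (hH : 0 ≤ H) : Integrable (fun ω => ‖pth H (fi k ω)‖ ^ (2 * k)) PG :=
  (Phi_int hk hH (Apx_path hk hH (norm_hom hk).1 (norm_hom hk).2)).1

lemma LM_lint {k H : ℝ} (hk : 0 < k) (hH : 0 ≤ H) : ENNReal.ofReal (LM k H) = ∫⁻ ω, ENNReal.ofReal (‖pth H (fi k ω)‖ ^ (2 * k)) ∂PG := by
  unfold LM
  exact ofReal_integral_eq_lintegral_ofReal (LM_int hk hH) (Eventually.of_forall fun ω => Real.rpow_nonneg (norm_nonneg _) _)

lemma LM_nonneg (k H : ℝ) : 0 ≤ LM k H := integral_nonneg fun ω => Real.rpow_nonneg (norm_nonneg _) _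

/-- the norm of the path -/
lemma pth_bd (k : ℝ) {p H : ℝ} (hp : 0 < p) {ω : ℕ → ℝ × ℝ} (hω : Gd ω) : ‖pth H (fi k ω)‖ ^ p ≤ 16 / Real.pi * ∫ z in D2 H, Real.exp (p * lz k ω z) := by
  obtain ⟨Y, hY⟩ : ∃ Y : ℝ, Y = 16 / Real.pi * ∫ z in D2 H, ‖fi k ω z‖ ^ p := ⟨_, rfl⟩
  have hY0 : 0 ≤ Y := by rw [hY]; exact mul_nonneg (by positivity) (integral_nonneg fun z => Real.rpow_nonneg (norm_nonneg _) _)
  have e1 : ∫ z in D2 H, Real.exp (p * lz k ω z) = ∫ z in D2 H, ‖fi k ω z‖ ^ p := by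
    refine setIntegral_congr_fun (D2_compact H).measurableSet fun z hz => ?_
    show Real.exp (p * lz k ω z) = ‖fi k ω z‖ ^ p
    rw [exp_lz k ω (D2_re hz), ← Real.exp_mul]
    congr 1
    ring
  rw [e1, ← hY]
  have h1 : ‖pth H (fi k ω)‖ ≤ Y ^ (1 / p) := by
    rw [ContinuousMap.norm_le _ (by positivity)]
    intro a
    rw [pth_fi k hω]
    have hin : Complex.I * ((a : ℝ) : ℂ) ∈ D1 H := by
      refine ⟨by simp, ?_⟩
      have := abs_le.mpr a.2
      simp
      linarith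
    have h2 := Real.rpow_le_rpow (Real.rpow_nonneg (norm_nonneg _) _) (fsup k hp hω H hin) (show 0 ≤ 1 / p by positivity)
    rw [← Real.rpow_mul (norm_nonneg _), mul_one_div, div_self hp.ne', Real.rpow_one, ← hY] at h2
    exact h2
  have h3 := Real.rpow_le_rpow (norm_nonneg _) h1 hp.le
  rwa [← Real.rpow_mul hY0, one_div, inv_mul_cancel₀ hp.ne', Real.rpow_one] at h3

lemma exp_int_D2 (k : ℝ) (p : ℝ) {H : ℝ} {ω : ℕ → ℝ × ℝ} (hω : Gd ω) : IntegrableOn (fun z => Real.exp (p * lz k ω z)) (D2 H) := by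
  have h1 : ContinuousOn (fun z => ‖fi k ω z‖ ^ p) (D2 H) := (fi_diff k hω).continuousOn.norm.rpow_const fun z hz => Or.inl (by
    rw [exp_lz k ω (D2_re hz)]
    exact (Real.exp_pos _).ne')
  refine (h1.integrableOn_compact (D2_compact H)).congr_fun (fun z hz => ?_) (D2_compact H).measurableSet
  show ‖fi k ω z‖ ^ p = Real.exp (p * lz k ω z)
  rw [exp_lz k ω (D2_re hz), ← Real.exp_mul]
  congr 1
  ring

/-- **The linear upper bound.** -/
theorem up_lin {k : ℝ} (hk : 0 < k) : ∃ C : ℝ, 0 < C ∧ ∀ H : ℝ, 0 ≤ H → LM k H ≤ C * (1 + H) := by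
  refine ⟨16 / Real.pi * (4 ^ (k ^ 2) * 6), by positivity, fun H hH => ?_⟩
  have hH1 : 0 < 1 + H := by linarith
  have h1 : ENNReal.ofReal (LM k H) ≤ ENNReal.ofReal (16 / Real.pi) * ∫⁻ ω, (∫⁻ z in D2 H, ENNReal.ofReal (Real.exp (2 * k * lz k ω z))) ∂PG := by
    rw [LM_lint hk hH]
    rw [← lintegral_const_mul' _ _ ENNReal.ofReal_ne_top]
    refine lintegral_mono_ae ?_
    filter_upwards [Gd_ae] with ω hω
    rw [← ofReal_integral_eq_lintegral_ofReal (exp_int_D2 k (2 * k) hω) (Eventually.of_forall fun z => (Real.exp_pos _).le), ← ENNReal.ofReal_mul (by positivity)]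
    exact ENNReal.ofReal_le_ofReal (pth_bd k (by positivity) hω)
  have h2 := h1.trans (mul_le_mul_right (area_one hk hH) _)
  rw [← ENNReal.ofReal_mul (by positivity)] at h2
  refine ((ENNReal.ofReal_le_ofReal_iff (by positivity)).mp h2).trans (le_of_eq ?_)
  ring

/-- **The upper bound, `k ≤ 1`.** -/
theorem up_one {k : ℝ} (hk : 0 < k) (hk1 : k ≤ 1) : ∃ C : ℝ, 0 < C ∧ ∀ H : ℝ, 0 ≤ H → LM k H ≤ C * (1 + H) ^ (2 * k - k ^ 2) := by
  refine ⟨(16 / Real.pi) ^ k * (216 + 1), by positivity, fun H hH => ?_⟩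
  have hH1 : 0 < 1 + H := by linarith
  obtain ⟨τ, hτ⟩ : ∃ τ : ℝ, τ = (1 + H) ^ 2 := ⟨_, rfl⟩
  have hτ0 : 0 < τ := by rw [hτ]; positivity
  obtain ⟨P, hP⟩ : ∃ P : ℝ, P = (16 / Real.pi) ^ k := ⟨_, rfl⟩
  have hP0 : 0 < P := by rw [hP]; positivity
  have h1 : ENNReal.ofReal (LM k H) ≤ ENNReal.ofReal (P * τ ^ (k - 1)) *
      ∫⁻ ω, (∫⁻ z in D2 H, ENNReal.ofReal (Real.exp ((2 * k - 2) * lz k ω (H : ℂ) + 2 * lz k ω z))) ∂PG +
      ENNReal.ofReal (P * τ ^ k) * ∫⁻ ω, ENNReal.ofReal (Real.exp (2 * k * lz k ω (H : ℂ))) ∂PG := by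
    rw [LM_lint hk hH, ← lintegral_const_mul' _ _ ENNReal.ofReal_ne_top, ← lintegral_const_mul' _ _ ENNReal.ofReal_ne_top]
    have hm2 : AEMeasurable (fun ω => ENNReal.ofReal (P * τ ^ k) * ENNReal.ofReal (Real.exp (2 * k * lz k ω (H : ℂ)))) PG :=
      (ENNReal.measurable_ofReal.comp_aemeasurable (Real.measurable_exp.comp_aemeasurable ((lz_meas k (re_re hH)).const_mul _))).const_mul _
    rw [← lintegral_add_right' _ hm2]
    refine lintegral_mono_ae ?_
    filter_upwards [Gd_ae] with ω hω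
    obtain ⟨Y, hY⟩ : ∃ Y : ℝ, Y = ∫ z in D2 H, Real.exp (2 * lz k ω z) := ⟨_, rfl⟩
    have hY0 : 0 ≤ Y := by rw [hY]; exact integral_nonneg fun z => (Real.exp_pos _).le
    have e1 : ∫⁻ z in D2 H, ENNReal.ofReal (Real.exp ((2 * k - 2) * lz k ω (H : ℂ) + 2 * lz k ω z)) =
        ENNReal.ofReal (Real.exp ((2 * k - 2) * lz k ω (H : ℂ)) * Y) := by
      rw [ENNReal.ofReal_mul (Real.exp_pos _).le, hY, ofReal_integral_eq_lintegral_ofReal (exp_int_D2 k 2 hω) (Eventually.of_forall fun z => (Real.exp_pos _).le),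
        ← lintegral_const_mul' _ _ ENNReal.ofReal_ne_top]
      refine lintegral_congr fun z => ?_
      rw [← ENNReal.ofReal_mul (Real.exp_pos _).le, ← Real.exp_add]
    rw [e1, ← ENNReal.ofReal_mul (by positivity), ← ENNReal.ofReal_mul (by positivity), ← ENNReal.ofReal_add (by positivity) (by positivity)]
    refine ENNReal.ofReal_le_ofReal ?_
    have h2 : ‖pth H (fi k ω)‖ ^ (2 * k) ≤ (16 / Real.pi * Y) ^ k := by
      rw [Real.rpow_mul (norm_nonneg _)]
      refine Real.rpow_le_rpow (Real.rpow_nonneg (norm_nonneg _) _) ?_ hk.le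
      rw [hY]
      exact pth_bd k two_pos hω
    refine h2.trans ?_
    rw [Real.mul_rpow (by positivity) hY0, ← hP, mul_assoc, mul_assoc, ← mul_add]
    refine mul_le_mul_of_nonneg_left ?_ hP0.le
    -- the tangent inequality
    obtain ⟨x, hx⟩ : ∃ x : ℝ, x = Real.exp (lz k ω (H : ℂ)) := ⟨_, rfl⟩
    have hx0 : 0 < x := by rw [hx]; exact Real.exp_pos _
    have e2 : Real.exp (2 * k * lz k ω (H : ℂ)) = (x ^ 2) ^ k := by
      rw [hx, ← Real.exp_nat_mul, ← Real.exp_mul]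
      congr 1
      push_cast
      ring
    have e3 : Real.exp ((2 * k - 2) * lz k ω (H : ℂ)) = (x ^ 2) ^ (k - 1) := by
      rw [hx, ← Real.exp_nat_mul, ← Real.exp_mul]
      congr 1
      push_cast
      ring
    rw [e2, e3]
    rcases le_or_gt Y (x ^ 2 * τ) with h | h
    · have h3 : Y ^ k ≤ (x ^ 2 * τ) ^ k := Real.rpow_le_rpow hY0 h hk.le
      rw [Real.mul_rpow (by positivity) hτ0.le] at h3
      have h4 : 0 ≤ τ ^ (k - 1) * ((x ^ 2) ^ (k - 1) * Y) := by positivity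
      nlinarith
    · have hY1 : 0 < Y := lt_trans (by positivity) h
      have h3 : Y ^ (k - 1) ≤ (x ^ 2 * τ) ^ (k - 1) := Real.rpow_le_rpow_of_nonpos (by positivity) h.le (by linarith)
      rw [Real.mul_rpow (by positivity) hτ0.le] at h3
      have h4 : Y ^ k = Y * Y ^ (k - 1) := by
        rw [← Real.rpow_one_add' hY0 (by linarith)]
        congr 1
        ring
      have h5 : 0 ≤ τ ^ k * (x ^ 2) ^ k := by positivity
      rw [h4]
      have h6 := mul_le_mul_of_nonneg_left h3 hY0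
      nlinarith
  have h2 : ∫⁻ ω, ENNReal.ofReal (Real.exp (2 * k * lz k ω (H : ℂ))) ∂PG = ENNReal.ofReal ((1 + H) ^ (-(k ^ 2))) := by
    rw [← ofReal_integral_eq_lintegral_ofReal (lz_one_int k (2 * k) (re_re hH)) (Eventually.of_forall fun ω => (Real.exp_pos _).le), lz_one k (2 * k) (re_re hH),
      sg_real hH, Real.rpow_def_of_pos hH1]
    congr 2
    ring
  have h3 := h1.trans (add_le_add (mul_le_mul_right (area_two hk hk1 hH) _) (le_of_eq (congrArg _ h2)))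
  rw [← ENNReal.ofReal_mul (by positivity), ← ENNReal.ofReal_mul (by positivity), ← ENNReal.ofReal_add (by positivity) (by positivity)] at h3
  refine ((ENNReal.ofReal_le_ofReal_iff (by positivity)).mp h3).trans (le_of_eq ?_)
  have e1 : τ ^ (k - 1) * ((1 + H) ^ (1 - k ^ 2) * (1 + H)) = (1 + H) ^ (2 * k - k ^ 2) := by
    rw [hτ, ← Real.rpow_natCast (1 + H) 2, ← Real.rpow_mul hH1.le, ← Real.rpow_add_one hH1.ne', ← Real.rpow_add hH1]
    congr 1
    push_cast
    ring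
  have e2 : τ ^ k * (1 + H) ^ (-(k ^ 2)) = (1 + H) ^ (2 * k - k ^ 2) := by
    rw [hτ, ← Real.rpow_natCast (1 + H) 2, ← Real.rpow_mul hH1.le, ← Real.rpow_add hH1]
    congr 1
  have e3 : P * τ ^ (k - 1) * (36 * (1 + H) ^ (1 - k ^ 2) * (6 * (1 + H))) + P * τ ^ k * (1 + H) ^ (-(k ^ 2)) =
      P * (216 * (τ ^ (k - 1) * ((1 + H) ^ (1 - k ^ 2) * (1 + H))) + τ ^ k * (1 + H) ^ (-(k ^ 2))) := by ring
  rw [e3, e1, e2, hP]
  ring

end Pool.Agent.X111.FZ
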